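import Mathlib

/-!
# Characters of abelian groups with prescribed size on a given element
-/

set_option autoImplicit false

namespace Pool.Agent.WFP

variable {U : Type*} [AddCommGroup U]

theorem ext_char (μ : U) (y : AddCircle (1 : ℚ)) (h : ∀ j : ℤ, j • μ = 0 → j • y = 0) :
    ∃ c : U →+ AddCircle (1 : ℚ), c μ = y := by
  let T : ℤ →ₗ[ℤ] U := LinearMap.toSpanSingleton ℤ U μ
  let Y : ℤ →ₗ[ℤ] AddCircle (1 : ℚ) := LinearMap.toSpanSingleton ℤ _ y
  have hTY : LinearMap.ker T ≤ LinearMap.ker Y := by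
    intro j hj
    rw [LinearMap.mem_ker] at hj ⊢
    exact h j hj
  let q : (ℤ ⧸ LinearMap.ker T) →ₗ[ℤ] AddCircle (1 : ℚ) := (LinearMap.ker T).liftQ Y hTY
  let inj : (ℤ ⧸ LinearMap.ker T) →ₗ[ℤ] U := (LinearMap.ker T).liftQ T le_rfl
  have hinj : Function.Injective inj := by
    rw [← LinearMap.ker_eq_bot]
    exact Submodule.ker_liftQ_eq_bot _ _ _ le_rfl
  obtain ⟨c, hc⟩ := CharacterModule.dual_surjective_of_injective inj hinj
    (show CharacterModule (ℤ ⧸ LinearMap.ker T) from q.toAddMonoidHom)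
  refine ⟨c, ?_⟩
  have h1 := DFunLike.congr_fun hc (Submodule.Quotient.mk 1)
  have h2 : inj (Submodule.Quotient.mk 1) = μ := by
    show T 1 = μ
    simp [T]
  have h3 : q (Submodule.Quotient.mk 1) = y := by
    show Y 1 = y
    simp [Y]
  have h4 : c (inj (Submodule.Quotient.mk 1)) = q (Submodule.Quotient.mk 1) := h1
  rw [h2, h3] at h4
  exact h4

theorem zsmul_coe_eq_zero_iff (j : ℤ) (c N : ℤ) (hN : N ≠ 0) :
    j • ((((c : ℚ) / N : ℚ)) : AddCircle (1 : ℚ)) = 0 ↔ N ∣ j * c := by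
  rw [← AddCircle.coe_zsmul, AddCircle.coe_eq_zero_iff]
  have hN' : (N : ℚ) ≠ 0 := by exact_mod_cast hN
  constructor
  · rintro ⟨m, hm⟩
    refine ⟨m, ?_⟩
    rw [zsmul_eq_mul, mul_one, zsmul_eq_mul, mul_div_assoc', eq_div_iff hN'] at hm
    have : ((m * N : ℤ) : ℚ) = ((j * c : ℤ) : ℚ) := by push_cast; exact hm
    have h2 := Int.cast_injective this
    rw [← h2, mul_comm]
  · rintro ⟨m, hm⟩
    refine ⟨m, ?_⟩
    rw [zsmul_eq_mul, mul_one, zsmul_eq_mul, mul_div_assoc', eq_div_iff hN']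
    have : ((j * c : ℤ) : ℚ) = ((N * m : ℤ) : ℚ) := by rw [hm]
    push_cast at this
    rw [this]; ring

theorem char_of_frac (μ : U) (c N : ℤ) (hN : N ≠ 0) (h : ∀ j : ℤ, j • μ = 0 → N ∣ j) :
    ∃ χ : U →+ AddCircle (1 : ℚ), χ μ = (((c : ℚ) / N : ℚ) : AddCircle (1 : ℚ)) := by
  apply ext_char
  intro j hj
  rw [zsmul_coe_eq_zero_iff j c N hN]
  exact (h j hj).mul_right c

/-- numerators coprime to `N` in the interval `[N/6, N/2]` -/
theorem exists_coprime (N : ℕ) (hN : 2 ≤ N) :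
    ∃ c : ℕ, Nat.Coprime N c ∧ N ≤ 6 * c ∧ 2 * c ≤ N := by
  rcases Nat.even_or_odd' N with ⟨m, rfl | rfl⟩
  · rcases Nat.even_or_odd' m with ⟨t, rfl | rfl⟩
    · -- N = 4 t, c = 2 t - 1
      refine ⟨2 * t - 1, ?_, by omega, by omega⟩
      have ht : 1 ≤ t := by omega
      obtain ⟨r, rfl⟩ : ∃ r, t = r + 1 := ⟨t - 1, by omega⟩
      have e : 2 * (r + 1) - 1 = 2 * r + 1 := by omega
      rw [e]
      have h1 : Nat.Coprime (2 * r + 1) 2 := by
        rw [Nat.coprime_comm, Nat.coprime_two_left]; exact ⟨r, rfl⟩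
      have h2 : Nat.Coprime (r + 1) (2 * r + 1) := by
        have : 2 * r + 1 = (r + 1) + r := by ring
        rw [this]
        simp
      have h3 : 2 * (2 * (r + 1)) = 2 * 2 * (r + 1) := by ring
      rw [h3]
      exact Nat.Coprime.mul_left (Nat.Coprime.mul_left h1.symm h1.symm) h2
    · -- N = 4 t + 2
      rcases Nat.eq_zero_or_pos t with rfl | ht
      · exact ⟨1, by norm_num, by omega, by omega⟩
      · obtain ⟨r, rfl⟩ : ∃ r, t = r + 1 := ⟨t - 1, by omega⟩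
        refine ⟨2 * r + 1, ?_, by omega, by omega⟩
        have h1 : Nat.Coprime (2 * r + 1) 2 := by
          rw [Nat.coprime_comm, Nat.coprime_two_left]; exact ⟨r, rfl⟩
        have h2 : Nat.Coprime (2 * (r + 1) + 1) (2 * r + 1) := by
          have : 2 * (r + 1) + 1 = 2 + (2 * r + 1) := by ring
          rw [this, Nat.coprime_add_self_left]
          exact h1.symm
        exact Nat.Coprime.mul_left h1.symm h2
  · -- N = 2 m + 1
    refine ⟨m, ?_, by omega, by omega⟩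
    have : 2 * m + 1 = m + (m + 1) := by ring
    rw [this]
    simp

theorem addOrder_dvd (μ : U) (j : ℤ) (h : j • μ = 0) : (addOrderOf μ : ℤ) ∣ j :=
  addOrderOf_dvd_iff_zsmul_eq_zero.2 h

/-- a character which is large on `μ` -/
theorem char_large {μ : U} (hμ : μ ≠ 0) : ∃ β : ℚ, 1 / 3 ≤ β ∧ β ≤ 1 / 2 ∧
    ∃ χ : U →+ AddCircle (1 : ℚ), χ μ = (β : AddCircle (1 : ℚ)) := by
  have h1 : addOrderOf μ ≠ 1 := fun h => hμ (AddMonoid.addOrderOf_eq_one_iff.1 h)
  rcases Nat.eq_zero_or_pos (addOrderOf μ) with h0 | hpos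
  · refine ⟨1 / 2, by norm_num, by norm_num, ?_⟩
    obtain ⟨χ, hχ⟩ := char_of_frac μ 1 2 (by norm_num) (fun j hj => by
      have := addOrder_dvd μ j hj
      rw [h0] at this
      have h2 : j = 0 := by simpa using this
      rw [h2]; exact dvd_zero _)
    exact ⟨χ, by rw [hχ]; norm_num⟩
  · obtain ⟨N, hN⟩ : ∃ N, N = addOrderOf μ := ⟨_, rfl⟩
    rw [← hN] at hpos h1
    have hN0 : (N : ℤ) ≠ 0 := by omega
    have hd : ∀ j : ℤ, j • μ = 0 → (N : ℤ) ∣ j := fun j hj => by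
      rw [hN]; exact addOrder_dvd μ j hj
    obtain ⟨χ, hχ⟩ := char_of_frac μ ((N / 2 : ℕ) : ℤ) N hN0 hd
    have hNq : (0 : ℚ) < N := by exact_mod_cast hpos
    refine ⟨((N / 2 : ℕ) : ℚ) / N, ?_, ?_, χ, ?_⟩
    · rw [le_div_iff₀ hNq]
      have : N ≤ 3 * (N / 2) := by omega
      have h2 : (N : ℚ) ≤ 3 * ((N / 2 : ℕ) : ℚ) := by exact_mod_cast this
      linarith
    · rw [div_le_iff₀ hNq]
      have : 2 * (N / 2) ≤ N := by omega
      have h2 : 2 * ((N / 2 : ℕ) : ℚ) ≤ (N : ℚ) := by exact_mod_cast this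
      linarith
    · rw [hχ, Int.cast_natCast, Int.cast_natCast]

/-- a character which is large on `μ` and nontrivial on `a` -/
theorem char_sep {μ a : U} (hμ : μ ≠ 0) (ha : a ≠ 0) : ∃ β : ℚ, 1 / 6 ≤ β ∧ β ≤ 1 / 2 ∧
    ∃ χ : U →+ AddCircle (1 : ℚ), χ μ = (β : AddCircle (1 : ℚ)) ∧ χ a ≠ 0 := by
  by_cases hmem : a ∈ AddSubgroup.zmultiples μ
  · obtain ⟨j, hj⟩ := AddSubgroup.mem_zmultiples_iff.1 hmem
    have hj0 : j ≠ 0 := by
      rintro rfl
      apply ha
      rw [← hj, zero_zsmul]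
    have h1 : addOrderOf μ ≠ 1 := fun h => hμ (AddMonoid.addOrderOf_eq_one_iff.1 h)
    rcases Nat.eq_zero_or_pos (addOrderOf μ) with h0 | hpos
    · -- infinite order
      let t : ℕ := j.natAbs
      have ht : 1 ≤ t := Int.natAbs_pos.2 hj0
      have hd : ∀ i : ℤ, i • μ = 0 → ((2 * t + 1 : ℕ) : ℤ) ∣ i := fun i hi => by
        have := addOrder_dvd μ i hi
        rw [h0] at this
        have h2 : i = 0 := by simpa using this
        rw [h2]; exact dvd_zero _
      have hM : ((2 * t + 1 : ℕ) : ℤ) ≠ 0 := by omega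
      obtain ⟨χ, hχ⟩ := char_of_frac μ (t : ℤ) ((2 * t + 1 : ℕ) : ℤ) hM hd
      have hMq : (0 : ℚ) < ((2 * t + 1 : ℕ) : ℚ) := by positivity
      refine ⟨(t : ℚ) / ((2 * t + 1 : ℕ) : ℚ), ?_, ?_, χ, ?_, ?_⟩
      · rw [le_div_iff₀ hMq]
        have h2 : (1 : ℚ) ≤ t := by exact_mod_cast ht
        push_cast; linarith
      · rw [div_le_iff₀ hMq]
        push_cast; linarith
      · rw [hχ, Int.cast_natCast, Int.cast_natCast]
      · rw [← hj, map_zsmul, hχ]
        intro hz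
        rw [zsmul_coe_eq_zero_iff _ _ _ hM] at hz
        have hcop : IsCoprime ((2 * t + 1 : ℕ) : ℤ) (t : ℤ) := by
          refine ⟨1, -2, ?_⟩
          push_cast; ring
        have hdj := hcop.dvd_of_dvd_mul_right hz
        have h2 := Int.le_of_dvd (by positivity : (0 : ℤ) < |j|) ((dvd_abs _ _).2 hdj)
        have h3 : |j| = (t : ℤ) := by simp [t]
        rw [h3] at h2
        push_cast at h2
        omega
    · obtain ⟨N, hN⟩ : ∃ N, N = addOrderOf μ := ⟨_, rfl⟩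
      rw [← hN] at hpos h1
      have hN0 : (N : ℤ) ≠ 0 := by omega
      have hd : ∀ j : ℤ, j • μ = 0 → (N : ℤ) ∣ j := fun j hj => by
        rw [hN]; exact addOrder_dvd μ j hj
      obtain ⟨c, hc1, hc2, hc3⟩ := exists_coprime N (by omega)
      obtain ⟨χ, hχ⟩ := char_of_frac μ (c : ℤ) N hN0 hd
      have hNq : (0 : ℚ) < N := by exact_mod_cast hpos
      refine ⟨(c : ℚ) / N, ?_, ?_, χ, ?_, ?_⟩
      · rw [le_div_iff₀ hNq]
        have h2 : (N : ℚ) ≤ 6 * (c : ℚ) := by exact_mod_cast hc2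
        linarith
      · rw [div_le_iff₀ hNq]
        have h2 : 2 * (c : ℚ) ≤ (N : ℚ) := by exact_mod_cast hc3
        linarith
      · rw [hχ, Int.cast_natCast, Int.cast_natCast]
      · rw [← hj, map_zsmul, hχ]
        intro hz
        rw [zsmul_coe_eq_zero_iff _ _ _ hN0] at hz
        have hcop : IsCoprime (N : ℤ) (c : ℤ) := Nat.isCoprime_iff_coprime.2 hc1
        have hdj := hcop.dvd_of_dvd_mul_right hz
        apply ha
        rw [← hj]
        rw [hN] at hdj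
        exact addOrderOf_dvd_iff_zsmul_eq_zero.1 hdj
  · obtain ⟨β, hβ1, hβ2, χ₀, hχ₀⟩ := char_large hμ
    by_cases h0 : χ₀ a = 0
    · have hne : (QuotientAddGroup.mk a : U ⧸ AddSubgroup.zmultiples μ) ≠ 0 := by
        intro h
        exact hmem ((QuotientAddGroup.eq_zero_iff a).1 h)
      obtain ⟨χ₁, hχ₁⟩ := CharacterModule.exists_character_apply_ne_zero_of_ne_zero hne
      let χ₁' : U →+ AddCircle (1 : ℚ) :=
        (show (U ⧸ AddSubgroup.zmultiples μ) →+ AddCircle (1 : ℚ) from χ₁).comp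
          (QuotientAddGroup.mk' (AddSubgroup.zmultiples μ))
      have e1 : χ₁' μ = 0 := by
        show χ₁ (QuotientAddGroup.mk μ) = 0
        rw [(QuotientAddGroup.eq_zero_iff μ).2 (AddSubgroup.mem_zmultiples μ)]
        exact map_zero χ₁
      refine ⟨β, by linarith, hβ2, χ₀ + χ₁', ?_, ?_⟩
      · rw [AddMonoidHom.add_apply, hχ₀, e1, add_zero]
      · rw [AddMonoidHom.add_apply, h0, zero_add]
        exact hχ₁
    · exact ⟨β, by linarith, hβ2, χ₀, hχ₀, h0⟩

end Pool.Agent.WFP
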