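import Mathlib

/-!
# Classes of groups
-/

set_option autoImplicit false

namespace Pool.Agent.WFP

/-- `G` is *locally hypoabelian with respect to the fields `k c`* (`c ∈ C`): every nontrivial normal
subgroup of every finitely generated subgroup of `G` has a nontrivial homomorphism to the additive
group of one of the fields `k c`. -/
def LocHypo {C : Type*} (k : C → Type*) [∀ c, Field (k c)] (G : Type*) [Group G] : Prop :=
  ∀ H : Subgroup G, H.FG → ∀ K : Subgroup H, K.Normal → K ≠ ⊥ →
    ∃ c, ∃ χ : K →* Multiplicative (k c), χ ≠ 1

/-- `G` is *locally hypoabelian*: no finitely generated subgroup of `G` has a nontrivial perfect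
normal subgroup. -/
def LocHypoAb (G : Type*) [Group G] : Prop :=
  ∀ H : Subgroup G, H.FG → ∀ K : Subgroup H, K.Normal → K ≠ ⊥ → commutator K ≠ ⊤

end Pool.Agent.WFP
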