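import Mathlib

/-!
# A linear algebra lemma

Let `U j` (`j ∈ J`, `J` finite) be vector spaces, `D ⊆ J` and `M` a subspace of `Π j, U j` of
dimension smaller than `|D|`.  Then there are a vector space quotient `W` of `Π j, U j` and a
nonempty set `I ⊆ D` such that `M` maps to `0` in `W`, every `U i` with `i ∈ I` embeds in `W` and every `U i`
with `i ∉ I` maps to `0`.
-/

set_option autoImplicit false
set_option linter.unusedSectionVars false

namespace Pool.Agent.WFP

open Module

variable {k : Type*} [Field k] {J : Type*} [Finite J] [DecidableEq J]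
  (U : J → Type*) [∀ j, AddCommGroup (U j)] [∀ j, Module k (U j)]

/-- the projection killing the coordinates outside `I` -/
def prj (I : Finset J) : (∀ j, U j) →ₗ[k] (∀ j, U j) where
  toFun f j := if j ∈ I then f j else 0
  map_add' f g := by
    funext j; by_cases h : j ∈ I <;> simp [h]
  map_smul' c f := by
    funext j; by_cases h : j ∈ I <;> simp [h]

theorem prj_apply (I : Finset J) (f : ∀ j, U j) (j : J) :
    prj (k := k) U I f j = if j ∈ I then f j else 0 := rfl

theorem prj_prj {I I' : Finset J} (h : I' ⊆ I) (f : ∀ j, U j) :
    prj (k := k) U I' (prj (k := k) U I f) = prj (k := k) U I' f := by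
  funext j
  simp only [prj_apply]
  by_cases hj : j ∈ I'
  · simp [hj, h hj]
  · simp [hj]

theorem linear_lemma (M : Submodule k (∀ j, U j)) [FiniteDimensional k M] (D : Finset J)
    (hM : finrank k M < D.card) :
    ∃ (W : Submodule k (∀ j, U j)) (I : Finset J), I.Nonempty ∧ I ⊆ D ∧ M ≤ W ∧
      (∀ i ∈ I, ∀ u : U i, (Pi.single i u : ∀ j, U j) ∈ W → u = 0) ∧
      (∀ i ∉ I, ∀ u : U i, (Pi.single i u : ∀ j, U j) ∈ W) := by
  classical
  have := Fintype.ofFinite J
  let N : Finset J → Submodule k (∀ j, U j) := fun I => M.map (prj (k := k) U I)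
  have hN : ∀ I, FiniteDimensional k (N I) := fun I => inferInstance
  let p : Finset J → Prop := fun I => finrank k (N I) < I.card
  have huniv : p D := by
    show finrank k (N D) < D.card
    calc finrank k (N D) ≤ finrank k M := Submodule.finrank_map_le _ _
      _ < D.card := hM
  -- a minimal I
  obtain ⟨I, hID, hmin⟩ := (D.powerset.filter p).exists_min_image Finset.card
    ⟨D, by simp [huniv]⟩
  simp only [Finset.mem_filter, Finset.mem_powerset] at hID hmin
  obtain ⟨hID, hI⟩ := hID
  have hne : I.Nonempty := by
    rw [← Finset.card_pos]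
    exact lt_of_le_of_lt (Nat.zero_le _) hI
  have hkey : ∀ i ∈ I, ∀ u : U i, (Pi.single i u : ∀ j, U j) ∈ N I → u = 0 := by
    intro i hi u hu
    by_contra hu0
    have hlt : finrank k (N (I.erase i)) < finrank k (N I) := by
      have hmap : N (I.erase i) = (N I).map (prj (k := k) U (I.erase i)) := by
        apply le_antisymm
        · rintro _ ⟨m, hm, rfl⟩
          exact ⟨prj (k := k) U I m, ⟨m, hm, rfl⟩, prj_prj U (Finset.erase_subset _ _) m⟩
        · rintro _ ⟨_, ⟨m, hm, rfl⟩, rfl⟩
          exact ⟨m, hm, (prj_prj U (Finset.erase_subset _ _) m).symm⟩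
      let g : N I →ₗ[k] (∀ j, U j) := (prj (k := k) U (I.erase i)).domRestrict (N I)
      have hrange : LinearMap.range g = N (I.erase i) := by
        rw [hmap]
        ext x
        constructor
        · rintro ⟨y, rfl⟩
          exact ⟨y, y.2, rfl⟩
        · rintro ⟨y, hy, rfl⟩
          exact ⟨⟨y, hy⟩, rfl⟩
      have hsum := LinearMap.finrank_range_add_finrank_ker g
      rw [hrange] at hsum
      have hker : 0 < finrank k (LinearMap.ker g) := by
        apply Nat.pos_of_ne_zero
        intro h0
        have hbot : LinearMap.ker g = ⊥ := Submodule.finrank_eq_zero.1 h0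
        have hmem : (⟨(Pi.single i u : ∀ j, U j), hu⟩ : N I) ∈ LinearMap.ker g := by
          rw [LinearMap.mem_ker]
          show prj (k := k) U (I.erase i) (Pi.single i u) = 0
          funext j
          rw [prj_apply]
          by_cases hj : j ∈ I.erase i
          · have : j ≠ i := Finset.ne_of_mem_erase hj
            simp [hj, Pi.single_eq_of_ne this]
          · simp [hj]
        rw [hbot, Submodule.mem_bot] at hmem
        have h1 : (Pi.single i u : ∀ j, U j) = 0 := congrArg Subtype.val hmem
        have h2 := congrFun h1 i
        rw [Pi.single_eq_same] at h2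
        exact hu0 h2
      omega
    by_cases hp : p (I.erase i)
    · have := hmin _ ⟨(Finset.erase_subset _ _).trans hID, hp⟩
      rw [Finset.card_erase_of_mem hi] at this
      have hpos := Finset.card_pos.2 hne
      omega
    · have hp' : (I.erase i).card ≤ finrank k (N (I.erase i)) := not_lt.1 hp
      rw [Finset.card_erase_of_mem hi] at hp'
      have : finrank k (N I) < I.card := hI
      omega
  refine ⟨(N I).comap (prj (k := k) U I), I, hne, hID, ?_, ?_, ?_⟩
  · intro m hm
    exact ⟨m, hm, rfl⟩
  · intro i hi u hu
    apply hkey i hi u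
    have h1 : prj (k := k) U I (Pi.single i u) = Pi.single i u := by
      funext j
      rw [prj_apply]
      by_cases hj : j = i
      · subst hj; simp [hi]
      · simp [Pi.single_eq_of_ne hj]
    have h2 : prj (k := k) U I (Pi.single i u) ∈ N I := hu
    rwa [h1] at h2
  · intro i hi u
    have h1 : prj (k := k) U I (Pi.single i u) = 0 := by
      funext j
      rw [prj_apply]
      by_cases hj : j = i
      · subst hj; simp [hi]
      · simp [Pi.single_eq_of_ne hj]
    show prj (k := k) U I (Pi.single i u) ∈ N I
    rw [h1]; exact Submodule.zero_mem _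

end Pool.Agent.WFP
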