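import Mathlib

/-!
# Finitely generated reduction

If a finite set `S` normally generates the free product `*L j` of nontrivial groups, then there are
finitely generated subgroups `B j ≤ L j` and a set `S'` of elements of `*B j`, with at most as many
elements as `S`, such that the normal subgroups `κ j = B j ∩ ⟨⟨S'⟩⟩` of `B j` are nontrivial
and `S'` consists of elements of `*κ j`.
-/

set_option autoImplicit false

namespace Pool.Agent.WFP

open Monoid Monoid.CoprodI

section Inj

variable {ι : Type*} {M N : ι → Type*} [∀ i, Group (M i)] [∀ i, Group (N i)]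

/-- the word map induced by injective homs -/
def wordMap (f : ∀ i, M i →* N i) (hf : ∀ i, Function.Injective (f i)) (w : Word M) : Word N where
  toList := w.toList.map (fun l => ⟨l.1, f l.1 l.2⟩)
  ne_one := by
    intro l hl
    obtain ⟨l', hl', rfl⟩ := List.mem_map.1 hl
    intro h
    apply w.ne_one l' hl'
    apply hf
    rw [map_one]; exact h
  chain_ne := by
    rw [List.isChain_map]
    exact w.chain_ne

theorem wordMap_prod (f : ∀ i, M i →* N i) (hf : ∀ i, Function.Injective (f i)) (w : Word M) :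
    (wordMap f hf w).prod = lift (fun i => (of : N i →* CoprodI N).comp (f i)) w.prod := by
  unfold Word.prod wordMap
  simp only [List.map_map, map_list_prod]
  congr 1

theorem coprod_map_injective (f : ∀ i, M i →* N i) (hf : ∀ i, Function.Injective (f i)) :
    Function.Injective (lift (fun i => (of : N i →* CoprodI N).comp (f i))) := by
  classical
  rw [injective_iff_map_eq_one]
  intro x hx
  obtain ⟨w, rfl⟩ := Word.equiv.symm.surjective x
  have h1 : (wordMap f hf w).prod = 1 := by
    rw [wordMap_prod]; exact hx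
  have h2 : wordMap f hf w = Word.empty := by
    apply (Word.equiv (M := N)).symm.injective
    show (wordMap f hf w).prod = Word.empty.prod
    rw [h1, Word.prod_empty]
  have h3 : w = Word.empty := by
    apply Word.ext
    have := congrArg Word.toList h2
    simp only [wordMap, Word.empty_toList, List.map_eq_nil_iff] at this
    rw [this]; rfl
  rw [h3]; rfl

end Inj

section Red

variable {J : Type*} {L : J → Type*} [∀ j, Group (L j)]

/-- the inclusion of the free product of subgroups -/
def inc (B : ∀ j, Subgroup (L j)) : CoprodI (fun j => B j) →* CoprodI L :=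
  lift (fun j => (of : L j →* CoprodI L).comp (B j).subtype)

theorem inc_injective (B : ∀ j, Subgroup (L j)) : Function.Injective (inc B) :=
  coprod_map_injective (fun j => (B j).subtype) (fun _ => Subtype.coe_injective)

theorem inc_of (B : ∀ j, Subgroup (L j)) (j : J) (b : B j) : inc B (of b) = of (b : L j) := by
  simp [inc]

theorem inc_range_mono {B C : ∀ j, Subgroup (L j)} (h : B ≤ C) : (inc B).range ≤ (inc C).range := by
  apply lift_range_le
  intro j
  rintro _ ⟨b, rfl⟩
  exact ⟨of ⟨b, h j b.2⟩, inc_of C j _⟩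

/-- every element of the free product lies in the free product of finitely generated subgroups -/
theorem exists_fg (x : CoprodI L) :
    ∃ B : ∀ j, Subgroup (L j), (∀ j, (B j).FG) ∧ x ∈ (inc B).range := by
  classical
  induction x using CoprodI.induction_on with
  | one => exact ⟨fun _ => ⊥, fun _ => Subgroup.FG.bot, Subgroup.one_mem _⟩
  | of i x =>
    refine ⟨Function.update (fun _ => ⊥) i (Subgroup.zpowers x), ?_, ?_⟩
    · intro j
      by_cases h : j = i
      · subst h
        rw [Function.update_self]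
        rw [Subgroup.zpowers_eq_closure]
        exact ⟨{x}, by simp⟩
      · rw [Function.update_of_ne h]; exact Subgroup.FG.bot
    · refine ⟨of ⟨x, ?_⟩, inc_of _ _ _⟩
      rw [Function.update_self]
      exact Subgroup.mem_zpowers x
  | mul x y hx hy =>
    obtain ⟨B, hB, hxB⟩ := hx
    obtain ⟨C, hC, hyC⟩ := hy
    refine ⟨B ⊔ C, fun j => (hB j).sup (hC j), ?_⟩
    exact Subgroup.mul_mem _ (inc_range_mono le_sup_left hxB) (inc_range_mono le_sup_right hyC)

/-- `NC S B`: the normal closure of `S` relative to the subgroup `*B j`. -/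
def NC (S : Set (CoprodI L)) (B : ∀ j, Subgroup (L j)) : Subgroup (CoprodI L) :=
  Subgroup.closure {x | ∃ f ∈ (inc B).range, ∃ s ∈ S, x = f * s * f⁻¹}

theorem NC_mono (S : Set (CoprodI L)) {B C : ∀ j, Subgroup (L j)} (h : B ≤ C) :
    NC S B ≤ NC S C := by
  apply Subgroup.closure_mono
  rintro x ⟨f, hf, s, hs, rfl⟩
  exact ⟨f, inc_range_mono h hf, s, hs, rfl⟩

theorem exists_NC (S : Set (CoprodI L)) {x : CoprodI L} (hx : x ∈ Subgroup.normalClosure S) :
    ∃ B : ∀ j, Subgroup (L j), (∀ j, (B j).FG) ∧ x ∈ NC S B := by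
  unfold Subgroup.normalClosure at hx
  induction hx using Subgroup.closure_induction with
  | mem x hx =>
    rw [Group.mem_conjugatesOfSet_iff] at hx
    obtain ⟨s, hs, hc⟩ := hx
    obtain ⟨f, hf⟩ := isConj_iff.1 hc
    obtain ⟨B, hB, hfB⟩ := exists_fg f
    exact ⟨B, hB, Subgroup.subset_closure ⟨f, hfB, s, hs, hf.symm⟩⟩
  | one => exact ⟨fun _ => ⊥, fun _ => Subgroup.FG.bot, Subgroup.one_mem _⟩
  | mul x y _ _ hx hy =>
    obtain ⟨B, hB, hxB⟩ := hx
    obtain ⟨C, hC, hyC⟩ := hy
    refine ⟨B ⊔ C, fun j => (hB j).sup (hC j), ?_⟩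
    exact Subgroup.mul_mem _ (NC_mono S le_sup_left hxB) (NC_mono S le_sup_right hyC)
  | inv x _ hx =>
    obtain ⟨B, hB, hxB⟩ := hx
    exact ⟨B, hB, Subgroup.inv_mem _ hxB⟩

theorem exists_fg_finset {α : Type*} (T : Finset α) (p : α → (∀ j, Subgroup (L j)) → Prop)
    (hmono : ∀ a B C, B ≤ C → p a B → p a C)
    (hex : ∀ a ∈ T, ∃ B : ∀ j, Subgroup (L j), (∀ j, (B j).FG) ∧ p a B) :
    ∃ B : ∀ j, Subgroup (L j), (∀ j, (B j).FG) ∧ ∀ a ∈ T, p a B := by
  classical
  induction T using Finset.induction_on with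
  | empty => exact ⟨fun _ => ⊥, fun _ => Subgroup.FG.bot, by simp⟩
  | insert a T _ ih =>
    obtain ⟨B, hB, hpB⟩ := ih (fun b hb => hex b (Finset.mem_insert_of_mem hb))
    obtain ⟨C, hC, hpC⟩ := hex a (Finset.mem_insert_self a T)
    refine ⟨B ⊔ C, fun j => (hB j).sup (hC j), ?_⟩
    intro b hb
    rcases Finset.mem_insert.1 hb with rfl | hb
    · exact hmono _ C _ le_sup_right hpC
    · exact hmono _ B _ le_sup_left (hpB b hb)

/-- the inclusion of a factor -/
abbrev ofB (B : ∀ j, Subgroup (L j)) (j : J) : B j →* CoprodI (fun j => B j) :=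
  of (M := fun j => B j) (i := j)

/-- `κ j = B j ∩ ⟨⟨S⟩⟩` -/
def kap (B : ∀ j, Subgroup (L j)) (S : Set (CoprodI (fun j => B j))) (j : J) : Subgroup (B j) :=
  (Subgroup.normalClosure S).comap (ofB B j)

/-- **Finitely generated reduction.** -/
theorem reduce' [Finite J] [∀ j, Nontrivial (L j)] (S : Finset (CoprodI L))
    (hS : Subgroup.normalClosure (S : Set (CoprodI L)) = ⊤) :
    ∃ (B : ∀ j, Subgroup (L j)) (S' : Finset (CoprodI (fun j => B j))),
      (∀ j, (B j).FG) ∧ S'.card ≤ S.card ∧ (∀ s ∈ S', inc B s ∈ S) ∧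
      (∀ j, kap B (S' : Set (CoprodI (fun j => B j))) j ≠ ⊥) ∧
      ∀ s ∈ S', ∃ w : CoprodI (fun j => kap B (S' : Set (CoprodI (fun j => B j))) j),
        lift (fun j => (ofB B j).comp
          (kap B (S' : Set (CoprodI (fun j => B j))) j).subtype) w = s := by
  classical
  have := Fintype.ofFinite J
  -- nontrivial elements
  choose e he using fun j => exists_ne (1 : L j)
  -- first stage
  obtain ⟨A₀, hA₀, hSA₀⟩ := exists_fg_finset S (fun s B => s ∈ (inc B).range)
    (fun a B C h hB => inc_range_mono h hB) (fun s _ => exists_fg s)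
  let A : ∀ j, Subgroup (L j) := fun j => A₀ j ⊔ Subgroup.zpowers (e j)
  have hA : ∀ j, (A j).FG := fun j => (hA₀ j).sup (by
    rw [Subgroup.zpowers_eq_closure]; exact ⟨{e j}, by simp⟩)
  have hSA : ∀ s ∈ S, s ∈ (inc A).range := fun s hs =>
    inc_range_mono (fun _ => le_sup_left) (hSA₀ s hs)
  have heA : ∀ j, e j ∈ A j := fun j =>
    (le_sup_right : Subgroup.zpowers (e j) ≤ A j) (Subgroup.mem_zpowers _)
  choose gen hgen using hA
  -- second stage
  let T : Finset (Σ j, L j) := Finset.univ.sigma gen
  obtain ⟨B₀, hB₀, hTB₀⟩ := exists_fg_finset T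
    (fun a B => (of a.2 : CoprodI L) ∈ NC (S : Set (CoprodI L)) B)
    (fun a B C h hB => NC_mono _ h hB) (fun a _ => exists_NC _ (by rw [hS]; trivial))
  let B : ∀ j, Subgroup (L j) := B₀ ⊔ A
  have hB : ∀ j, (B j).FG := fun j => (hB₀ j).sup ⟨gen j, hgen j⟩
  have hAB : A ≤ B := le_sup_right
  have hANC : ∀ j, ∀ a ∈ A j, (of a : CoprodI L) ∈ NC (S : Set (CoprodI L)) B := by
    intro j a ha
    rw [← hgen j] at ha
    have hle : Subgroup.closure (gen j : Set (L j)) ≤
        (NC (S : Set (CoprodI L)) B).comap (of : L j →* CoprodI L) := by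
      rw [Subgroup.closure_le]
      intro g hg
      have : (⟨j, g⟩ : Σ j, L j) ∈ T := by
        simp only [T, Finset.mem_sigma, Finset.mem_univ, true_and]
        exact hg
      exact NC_mono _ le_sup_left (hTB₀ _ this)
    exact hle ha
  have hSB : ∀ s ∈ S, s ∈ (inc B).range := fun s hs => inc_range_mono hAB (hSA s hs)
  -- the preimage of S
  let S' : Finset (CoprodI (fun j => B j)) := S.preimage (inc B) (inc_injective B).injOn
  have hcard : S'.card ≤ S.card := by
    have h1 : (S'.image (inc B)).card = S'.card :=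
      Finset.card_image_of_injective _ (inc_injective B)
    rw [← h1]
    apply Finset.card_le_card
    intro x hx
    obtain ⟨y, hy, rfl⟩ := Finset.mem_image.1 hx
    exact Finset.mem_preimage.1 hy
  -- relative normal closure
  have hNC : ∀ x : CoprodI (fun j => B j), inc B x ∈ NC (S : Set (CoprodI L)) B →
      x ∈ Subgroup.normalClosure (S' : Set (CoprodI (fun j => B j))) := by
    intro x hx
    have hle : NC (S : Set (CoprodI L)) B ≤
        (Subgroup.normalClosure (S' : Set (CoprodI (fun j => B j)))).map (inc B) := by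
      unfold NC
      rw [Subgroup.closure_le]
      rintro y ⟨f, ⟨f', rfl⟩, s, hs, rfl⟩
      obtain ⟨s', hs'⟩ := hSB s hs
      refine ⟨f' * s' * f'⁻¹, ?_, ?_⟩
      · apply Subgroup.normalClosure_normal.conj_mem
        apply Subgroup.subset_normalClosure
        rw [Finset.mem_coe, Finset.mem_preimage, hs']
        exact hs
      · simp [hs']
    obtain ⟨x', hx', hxx'⟩ := hle hx
    rw [← inc_injective B hxx']
    exact hx'
  let κ : ∀ j, Subgroup (B j) := kap B (S' : Set (CoprodI (fun j => B j)))
  have hκ : ∀ j, ∀ a (ha : a ∈ A j), (⟨a, hAB j ha⟩ : B j) ∈ κ j := by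
    intro j a ha
    show ofB B j (⟨a, hAB j ha⟩ : B j) ∈ Subgroup.normalClosure (S' : Set (CoprodI (fun j => B j)))
    apply hNC
    rw [inc_of]
    exact hANC j a ha
  refine ⟨B, S', hB, hcard, fun s hs => Finset.mem_preimage.1 hs, ?_, ?_⟩
  · intro j hbot
    have h1 : (⟨e j, hAB j (heA j)⟩ : B j) ∈ κ j := hκ j (e j) (heA j)
    have h2 : (⟨e j, hAB j (heA j)⟩ : B j) = 1 := by
      have : κ j = ⊥ := hbot
      rw [this] at h1
      exact Subgroup.mem_bot.1 h1
    exact he j (congrArg Subtype.val h2)
  · intro s hs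
    have hs1 : inc B s ∈ S := Finset.mem_preimage.1 hs
    obtain ⟨v, hv⟩ := hSA _ hs1
    -- move the letters from A to κ
    let φ : CoprodI (fun j => A j) →* CoprodI (fun j => κ j) :=
      lift (fun j => (of (M := fun j => κ j) (i := j)).comp
        { toFun := fun a => ⟨⟨a, hAB j a.2⟩, hκ j a a.2⟩
          map_one' := rfl
          map_mul' := fun _ _ => rfl })
    refine ⟨φ v, ?_⟩
    apply inc_injective B
    rw [← hv]
    have : ((inc B).comp (lift (fun j => (ofB B j).comp
        (Subgroup.subtype (κ j))))).comp φ = inc A := by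
      apply CoprodI.ext_hom
      intro j
      ext a
      simp [φ, inc]
    exact DFunLike.congr_fun this v

theorem reduce [Finite J] [∀ j, Nontrivial (L j)] (S : Finset (CoprodI L))
    (hS : Subgroup.normalClosure (S : Set (CoprodI L)) = ⊤) :
    ∃ (B : ∀ j, Subgroup (L j)) (S' : Finset (CoprodI (fun j => B j))),
      (∀ j, (B j).FG) ∧ S'.card ≤ S.card ∧
      (∀ j, kap B (S' : Set (CoprodI (fun j => B j))) j ≠ ⊥) ∧
      ∀ s ∈ S', ∃ w : CoprodI (fun j => kap B (S' : Set (CoprodI (fun j => B j))) j),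
        lift (fun j => (ofB B j).comp
          (kap B (S' : Set (CoprodI (fun j => B j))) j).subtype) w = s := by
  obtain ⟨B, S', h1, h2, _, h3, h4⟩ := reduce' S hS
  exact ⟨B, S', h1, h2, h3, h4⟩

end Red

end Pool.Agent.WFP
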