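import Pool.Agent.WFP.Transfer
import Pool.Agent.WFP.Defs
import Pool.Agent.WFP.Linear
import Pool.Agent.WFP.Reduce

/-!
# Characters with values in a field: at least as many relators as factors
-/

set_option autoImplicit false
set_option linter.unusedSectionVars false

namespace Pool.Agent.WFP

open Monoid Monoid.CoprodI Module

section

variable {k : Type*} [Field k] {J : Type*} [DecidableEq J] {P : J → Type*} [∀ j, Group (P j)]

/-- `f ↦ class of the vector with the only coordinate `f` at `j`` -/
def psi (W : Submodule k (∀ j, P j → k)) (j : J) :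
    (P j → Multiplicative k) →* Multiplicative ((∀ j, P j → k) ⧸ W) where
  toFun f := Multiplicative.ofAdd (W.mkQ (Pi.single j (fun g => (f g).toAdd)))
  map_one' := by
    have : (fun g => ((1 : P j → Multiplicative k) g).toAdd) = (0 : P j → k) := rfl
    rw [this, Pi.single_zero, map_zero]; rfl
  map_mul' f h := by
    have : (fun g => ((f * h) g).toAdd) = (fun g => (f g).toAdd) + (fun g => (h g).toAdd) := rfl
    rw [this, Pi.single_add, map_add]; rfl

theorem psi_inj (W : Submodule k (∀ j, P j → k)) (j : J)
    (h : ∀ u : P j → k, (Pi.single j u : ∀ j, P j → k) ∈ W → u = 0) :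
    Function.Injective (psi W j) := by
  rw [injective_iff_map_eq_one]
  intro f hf
  have h1 : W.mkQ (Pi.single j (fun g => (f g).toAdd)) = 0 := hf
  have h2 := h _ ((Submodule.Quotient.mk_eq_zero W).1 h1)
  funext g
  exact congrFun h2 g

theorem psi_one (W : Submodule k (∀ j, P j → k)) (j : J)
    (h : ∀ u : P j → k, (Pi.single j u : ∀ j, P j → k) ∈ W) : psi W j = 1 := by
  ext f
  exact (Submodule.Quotient.mk_eq_zero W).2 (h _)

/-- The total vector of a word. -/
noncomputable def vec (κ : ∀ j, Subgroup (P j)) [∀ j, (κ j).Normal]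
    (χ : ∀ j, κ j →* Multiplicative k) :
    CoprodI (fun j => κ j) →* Multiplicative (∀ j, P j → k) :=
  lift (fun j =>
    { toFun := fun a => Multiplicative.ofAdd (Pi.single j (fun g => (tHom (κ j) (χ j) a g).toAdd))
      map_one' := by
        rw [map_one]
        have : (fun g => ((1 : P j → Multiplicative k) g).toAdd) = (0 : P j → k) := rfl
        rw [this, Pi.single_zero]; rfl
      map_mul' := by
        intro a b
        rw [map_mul]
        have : (fun g => ((tHom (κ j) (χ j) a * tHom (κ j) (χ j) b) g).toAdd) =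
          (fun g => (tHom (κ j) (χ j) a g).toAdd) + (fun g => (tHom (κ j) (χ j) b g).toAdd) := rfl
        rw [this, Pi.single_add]; rfl })

theorem core_A [Finite J] (S : Finset (CoprodI P)) (κ : ∀ j, Subgroup (P j)) [∀ j, (κ j).Normal]
    (hκ : ∀ j, ∀ a : κ j, (of (a : P j) : CoprodI P) ∈
      Subgroup.normalClosure (S : Set (CoprodI P)))
    (hS : ∀ s ∈ S, ∃ w : CoprodI (fun j => κ j),
      lift (fun j => (of : P j →* CoprodI P).comp (κ j).subtype) w = s)
    (χ : ∀ j, κ j →* Multiplicative k) (D : Finset J) (hχ : ∀ j ∈ D, χ j ≠ 1) :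
    D.card ≤ S.card := by
  classical
  by_contra hlt
  rw [not_le] at hlt
  choose! w hw using hS
  let M : Submodule k (∀ j, P j → k) :=
    Submodule.span k ((S.image (fun s => (vec κ χ (w s)).toAdd) : Finset (∀ j, P j → k)) : Set _)
  have hMfin : FiniteDimensional k M := FiniteDimensional.span_finset k _
  have hM : finrank k M < D.card :=
    lt_of_le_of_lt (le_trans (finrank_span_finset_le_card _) Finset.card_image_le) hlt
  obtain ⟨W, I, ⟨i, hi⟩, hID, hMW, hin, hout⟩ := linear_lemma (k := k) (fun j => P j → k) M D hM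
  apply hχ i (hID hi)
  refine transfer κ χ (psi W) ?_ (S : Set (CoprodI P)) ?_ hκ i (psi_inj W i (hin i hi))
  · intro j
    by_cases hj : j ∈ I
    · exact Or.inl (psi_inj W j (hin j hj))
    · exact Or.inr (psi_one W j (hout j hj))
  · intro s hs
    refine ⟨w s, hw s hs, ?_⟩
    have hcomp : lift (fun j => (psi W j).comp (tHom (κ j) (χ j))) =
        (AddMonoidHom.toMultiplicative W.mkQ.toAddMonoidHom).comp (vec κ χ) := by
      apply CoprodI.ext_hom
      intro j
      ext a
      simp only [MonoidHom.comp_apply, lift_of, vec]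
      rfl
    rw [hcomp]
    show Multiplicative.ofAdd (W.mkQ (vec κ χ (w s)).toAdd) = 1
    have : W.mkQ (vec κ χ (w s)).toAdd = 0 := by
      rw [Submodule.mkQ_apply, Submodule.Quotient.mk_eq_zero]
      apply hMW
      apply Submodule.subset_span
      exact Finset.mem_coe.2 (Finset.mem_image_of_mem _ hs)
    rw [this]; rfl

end

theorem weight_core {C : Type*} [Finite C] (k : C → Type*) [∀ c, Field (k c)] {J : Type*} [Finite J]
    {L : J → Type*} [∀ j, Group (L j)] [∀ j, Nontrivial (L j)] (hL : ∀ j, LocHypo k (L j))
    (S : Finset (CoprodI L)) (hS : Subgroup.normalClosure (S : Set (CoprodI L)) = ⊤) :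
    Nat.card J ≤ Nat.card C * S.card := by
  classical
  have := Fintype.ofFinite C
  have := Fintype.ofFinite J
  obtain ⟨B, S', hB, hcard, hne, hw⟩ := reduce S hS
  have hnormal : ∀ j, (kap B (S' : Set (CoprodI (fun j => B j))) j).Normal := fun j =>
    Subgroup.normalClosure_normal.comap (ofB B j)
  choose c χ hχ using fun j => hL j (B j) (hB j) _ (hnormal j) (hne j)
  have key : ∀ d : C, (Finset.univ.filter (fun j => c j = d)).card ≤ S'.card := by
    intro d
    let χ' : ∀ j, kap B (S' : Set (CoprodI (fun j => B j))) j →* Multiplicative (k d) :=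
      fun j => if h : c j = d then h ▸ χ j else 1
    refine core_A (k := k d) S' (fun j => kap B (S' : Set (CoprodI (fun j => B j))) j)
      (fun j a => a.2) hw χ' _ ?_
    intro j hj
    have hj' : c j = d := (Finset.mem_filter.1 hj).2
    subst hj'
    simp only [χ', dif_pos rfl]
    exact hχ j
  calc Nat.card J = (Finset.univ : Finset J).card := by rw [Nat.card_eq_fintype_card]; rfl
    _ = ∑ d : C, (Finset.univ.filter (fun j => c j = d)).card :=
        Finset.card_eq_sum_card_fiberwise (fun j _ => Finset.mem_univ (c j))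
    _ ≤ ∑ _d : C, S'.card := Finset.sum_le_sum (fun d _ => key d)
    _ = Nat.card C * S'.card := by
        rw [Finset.sum_const, smul_eq_mul, Nat.card_eq_fintype_card]; rfl
    _ ≤ Nat.card C * S.card := Nat.mul_le_mul_left _ hcard

end Pool.Agent.WFP
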