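import Pool.Agent.WFP.Howie2
import Pool.Agent.WFP.Char

/-!
# Rotation representations of abelian groups given by characters
-/

set_option autoImplicit false

namespace Pool.Agent.WFP

open Real Quaternion

/-- a pure unit quaternion -/
def PureUnit (u : ℍ[ℝ]) : Prop := u.imI ^ 2 + u.imJ ^ 2 + u.imK ^ 2 = 1

theorem qt_mul (s t : ℝ) {u : ℍ[ℝ]} (hu : PureUnit u) : qt s u * qt t u = qt (s + t) u := by
  unfold PureUnit at hu
  have e1 : ∀ t, (qt t u).re = cos (π * t) := fun _ => rfl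
  have e2 : ∀ t, (qt t u).imI = sin (π * t) * u.imI := fun _ => rfl
  have e3 : ∀ t, (qt t u).imJ = sin (π * t) * u.imJ := fun _ => rfl
  have e4 : ∀ t, (qt t u).imK = sin (π * t) * u.imK := fun _ => rfl
  have hc : cos (π * (s + t)) = cos (π * s) * cos (π * t) - sin (π * s) * sin (π * t) := by
    rw [mul_add, cos_add]
  have hs : sin (π * (s + t)) = sin (π * s) * cos (π * t) + cos (π * s) * sin (π * t) := by
    rw [mul_add, sin_add]
  ext
  · rw [re_mul, e1, e2, e3, e4, e1, e2, e3, e4, e1, hc]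
    linear_combination (- sin (π * s) * sin (π * t)) * hu
  · rw [imI_mul, e1, e2, e3, e4, e1, e2, e3, e4, e2, hs]
    ring
  · rw [imJ_mul, e1, e2, e3, e4, e1, e2, e3, e4, e3, hs]
    ring
  · rw [imK_mul, e1, e2, e3, e4, e1, e2, e3, e4, e4, hs]
    ring

theorem qt_zero (u : ℍ[ℝ]) : qt 0 u = 1 := by
  ext <;> simp [qt]

/-- the rotation quaternion as a unit -/
noncomputable def qU (u : ℍ[ℝ]) (hu : PureUnit u) (t : ℝ) : (ℍ[ℝ])ˣ where
  val := qt t u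
  inv := qt (-t) u
  val_inv := by rw [qt_mul _ _ hu, add_neg_cancel, qt_zero]
  inv_val := by rw [qt_mul _ _ hu, neg_add_cancel, qt_zero]

theorem qU_add (u : ℍ[ℝ]) (hu : PureUnit u) (s t : ℝ) : qU u hu (s + t) = qU u hu s * qU u hu t := by
  apply Units.ext
  exact (qt_mul s t hu).symm

/-- a real quaternion is central -/
theorem conj_eq_one {q : (ℍ[ℝ])ˣ} (h1 : (q : ℍ[ℝ]).imI = 0) (h2 : (q : ℍ[ℝ]).imJ = 0)
    (h3 : (q : ℍ[ℝ]).imK = 0) : MulAut.conj q = 1 := by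
  apply MulEquiv.ext
  intro y
  rw [MulAut.conj_apply, MulAut.one_apply]
  rw [mul_inv_eq_iff_eq_mul]
  apply Units.ext
  show (q : ℍ[ℝ]) * (y : ℍ[ℝ]) = (y : ℍ[ℝ]) * (q : ℍ[ℝ])
  ext
  · rw [re_mul, re_mul, h1, h2, h3]; ring
  · rw [imI_mul, imI_mul, h1, h2, h3]; ring
  · rw [imJ_mul, imJ_mul, h1, h2, h3]; ring
  · rw [imK_mul, imK_mul, h1, h2, h3]; ring

/-- the unit `i` -/
noncomputable def uI : (ℍ[ℝ])ˣ where
  val := ⟨0, 1, 0, 0⟩
  inv := ⟨0, -1, 0, 0⟩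
  val_inv := by ext <;> simp
  inv_val := by ext <;> simp

/-- the unit `j` -/
noncomputable def uJ : (ℍ[ℝ])ˣ where
  val := ⟨0, 0, 1, 0⟩
  inv := ⟨0, 0, -1, 0⟩
  val_inv := by ext <;> simp
  inv_val := by ext <;> simp

theorem real_of_conj {q : (ℍ[ℝ])ˣ} (h : MulAut.conj q = 1) :
    (q : ℍ[ℝ]).imI = 0 ∧ (q : ℍ[ℝ]).imJ = 0 ∧ (q : ℍ[ℝ]).imK = 0 := by
  have hcomm : ∀ y : (ℍ[ℝ])ˣ, (q : ℍ[ℝ]) * (y : ℍ[ℝ]) = (y : ℍ[ℝ]) * (q : ℍ[ℝ]) := by
    intro y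
    have h1 := DFunLike.congr_fun h y
    rw [MulAut.conj_apply, MulAut.one_apply, mul_inv_eq_iff_eq_mul] at h1
    exact congrArg Units.val h1
  have hI := hcomm uI
  have hJ := hcomm uJ
  have a1 := congrArg QuaternionAlgebra.imK hI
  have a2 := congrArg QuaternionAlgebra.imJ hI
  have a3 := congrArg QuaternionAlgebra.imK hJ
  have i0 : (uI : ℍ[ℝ]).re = 0 := rfl
  have i1 : (uI : ℍ[ℝ]).imI = 1 := rfl
  have i2 : (uI : ℍ[ℝ]).imJ = 0 := rfl
  have i3 : (uI : ℍ[ℝ]).imK = 0 := rfl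
  have j0 : (uJ : ℍ[ℝ]).re = 0 := rfl
  have j1 : (uJ : ℍ[ℝ]).imI = 0 := rfl
  have j2 : (uJ : ℍ[ℝ]).imJ = 1 := rfl
  have j3 : (uJ : ℍ[ℝ]).imK = 0 := rfl
  rw [imK_mul, imK_mul, i0, i1, i2, i3] at a1
  rw [imJ_mul, imJ_mul, i0, i1, i2, i3] at a2
  rw [imK_mul, imK_mul, j0, j1, j2, j3] at a3
  refine ⟨?_, ?_, ?_⟩ <;> linarith

/-- conjugation by rotations, as a homomorphism on `ℚ` -/
noncomputable def rotQ (u : ℍ[ℝ]) (hu : PureUnit u) : ℚ →+ Additive (MulAut (ℍ[ℝ])ˣ) where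
  toFun t := Additive.ofMul (MulAut.conj (qU u hu (t : ℝ)))
  map_zero' := by
    have : qU u hu ((0 : ℚ) : ℝ) = 1 := by
      apply Units.ext
      show qt ((0 : ℚ) : ℝ) u = 1
      rw [Rat.cast_zero, qt_zero]
    rw [this, map_one]; rfl
  map_add' s t := by
    rw [Rat.cast_add, qU_add, map_mul]; rfl

theorem rotQ_int (u : ℍ[ℝ]) (hu : PureUnit u) (m : ℤ) : MulAut.conj (qU u hu (m : ℝ)) = 1 := by
  have hs : sin (π * (m : ℝ)) = 0 := by rw [mul_comm]; exact sin_int_mul_pi m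
  apply conj_eq_one
  · show sin (π * (m : ℝ)) * u.imI = 0; rw [hs, zero_mul]
  · show sin (π * (m : ℝ)) * u.imJ = 0; rw [hs, zero_mul]
  · show sin (π * (m : ℝ)) * u.imK = 0; rw [hs, zero_mul]

/-- conjugation by rotations, as a homomorphism on `ℚ/ℤ` -/
noncomputable def rotC (u : ℍ[ℝ]) (hu : PureUnit u) :
    AddCircle (1 : ℚ) →+ Additive (MulAut (ℍ[ℝ])ˣ) :=
  QuotientAddGroup.lift (AddSubgroup.zmultiples (1 : ℚ)) (rotQ u hu) (by
    intro x hx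
    obtain ⟨m, rfl⟩ := AddSubgroup.mem_zmultiples_iff.1 hx
    show Additive.ofMul (MulAut.conj (qU u hu ((m • (1 : ℚ) : ℚ) : ℝ))) = 0
    have : ((m • (1 : ℚ) : ℚ) : ℝ) = (m : ℝ) := by simp
    rw [this, rotQ_int]; rfl)

theorem rotC_coe (u : ℍ[ℝ]) (hu : PureUnit u) (t : ℚ) :
    rotC u hu (t : AddCircle (1 : ℚ)) = Additive.ofMul (MulAut.conj (qU u hu (t : ℝ))) := rfl

theorem rotC_ne {u : ℍ[ℝ]} (hu : PureUnit u) {y : AddCircle (1 : ℚ)} (hy : y ≠ 0) :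
    rotC u hu y ≠ 0 := by
  obtain ⟨t, rfl⟩ := QuotientAddGroup.mk_surjective y
  intro h
  apply hy
  have h1 : MulAut.conj (qU u hu (t : ℝ)) = 1 := h
  obtain ⟨r1, r2, r3⟩ := real_of_conj h1
  have e1 : sin (π * (t : ℝ)) * u.imI = 0 := r1
  have e2 : sin (π * (t : ℝ)) * u.imJ = 0 := r2
  have e3 : sin (π * (t : ℝ)) * u.imK = 0 := r3
  have hs : sin (π * (t : ℝ)) = 0 := by
    have hu' : u.imI ^ 2 + u.imJ ^ 2 + u.imK ^ 2 = 1 := hu
    have : sin (π * (t : ℝ)) * (u.imI ^ 2 + u.imJ ^ 2 + u.imK ^ 2) = 0 := by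
      linear_combination u.imI * e1 + u.imJ * e2 + u.imK * e3
    rwa [hu', mul_one] at this
  obtain ⟨m, hm⟩ := sin_eq_zero_iff.1 hs
  have hmt : (t : ℝ) = m := by
    have hpi : π ≠ 0 := pi_ne_zero
    apply mul_left_cancel₀ hpi
    rw [← hm]; ring
  have hmt' : t = m := by exact_mod_cast hmt
  rw [QuotientAddGroup.eq_zero_iff, AddSubgroup.mem_zmultiples_iff]
  exact ⟨m, by rw [hmt']; simp⟩

theorem ax_pure (i : Fin 3) (x : Fin 3 → ℝ) : PureUnit (ax i x) := (ax_norm i x).1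

/-- the word as a unit -/
noncomputable def Uw (l : List (Fin 3 × ℚ)) (x : Fin 3 → ℝ) : (ℍ[ℝ])ˣ :=
  (l.map (fun p => qU (ax p.1 x) (ax_pure p.1 x) (p.2 : ℝ))).prod

/-- cast of a word -/
def castW (l : List (Fin 3 × ℚ)) : List (Fin 3 × ℝ) := l.map (fun p => (p.1, (p.2 : ℝ)))

theorem Uw_val (l : List (Fin 3 × ℚ)) (x : Fin 3 → ℝ) : (Uw l x : ℍ[ℝ]) = Fw (castW l) x := by
  induction l with
  | nil => simp [Uw, castW, Fw]
  | cons p l ih =>
    have h1 : Uw (p :: l) x = qU (ax p.1 x) (ax_pure p.1 x) (p.2 : ℝ) * Uw l x := by simp [Uw]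
    have h2 : castW (p :: l) = (p.1, (p.2 : ℝ)) :: castW l := rfl
    rw [h1, h2, Fw_cons, Units.val_mul, ih]
    rfl

/-- total rational angle -/
def totQ (i : Fin 3) (l : List (Fin 3 × ℚ)) : ℚ := (l.map (fun p => if p.1 = i then p.2 else 0)).sum

theorem tot_castW (i : Fin 3) (l : List (Fin 3 × ℚ)) : tot i (castW l) = (totQ i l : ℝ) := by
  induction l with
  | nil => simp [castW, tot, totQ]
  | cons p l ih =>
    have h2 : castW (p :: l) = (p.1, (p.2 : ℝ)) :: castW l := rfl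
    rw [h2, tot_cons, ih]
    have h3 : totQ i (p :: l) = (if p.1 = i then p.2 else 0) + totQ i l := by simp [totQ]
    rw [h3]
    push_cast
    by_cases h : p.1 = i <;> simp [h]

end Pool.Agent.WFP
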