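import Pool.Agent.WFP.Transfer
import Pool.Agent.WFP.Defs
import Pool.Agent.WFP.Reduce
import Pool.Agent.WFP.Rotation

/-!
# Three factors, one relator
-/

set_option autoImplicit false
set_option linter.unusedSectionVars false

namespace Pool.Agent.WFP

open Monoid Monoid.CoprodI Quaternion

section

variable {P : Fin 3 → Type*} [∀ j, Group (P j)] (κ : ∀ j, Subgroup (P j)) [∀ j, (κ j).Normal]
  {A : Fin 3 → Type*} [∀ j, CommGroup (A j)] (χ : ∀ j, κ j →* A j)

/-- total vector of a word -/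
noncomputable def totV : CoprodI (fun j => κ j) →* (∀ j, P j → A j) :=
  lift (fun j => (MonoidHom.mulSingle (fun j => P j → A j) j).comp (tHom (κ j) (χ j)))

/-- rotation representation with axes `ax j x` and characters `c j` -/
noncomputable def rep (c : ∀ j, Additive (P j → A j) →+ AddCircle (1 : ℚ)) (x : Fin 3 → ℝ)
    (j : Fin 3) : (P j → A j) →* MulAut (ℍ[ℝ])ˣ :=
  MonoidHom.toAdditive.symm ((rotC (ax j x) (ax_pure j x)).comp (c j))

theorem rep_apply (c : ∀ j, Additive (P j → A j) →+ AddCircle (1 : ℚ)) (x : Fin 3 → ℝ)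
    (j : Fin 3) (a : P j → A j) :
    rep c x j a = (rotC (ax j x) (ax_pure j x) (c j (Additive.ofMul a))).toMul := rfl

theorem Uw_append (l l' : List (Fin 3 × ℚ)) (x : Fin 3 → ℝ) :
    Uw (l ++ l') x = Uw l x * Uw l' x := by simp [Uw]

theorem totQ_append (i : Fin 3) (l l' : List (Fin 3 × ℚ)) :
    totQ i (l ++ l') = totQ i l + totQ i l' := by simp [totQ]

theorem word_exists (c : ∀ j, Additive (P j → A j) →+ AddCircle (1 : ℚ))
    (w : CoprodI (fun j => κ j)) : ∃ l : List (Fin 3 × ℚ),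
      (∀ x, lift (fun j => (rep c x j).comp (tHom (κ j) (χ j))) w = MulAut.conj (Uw l x)) ∧
      ∀ i, ((totQ i l : ℚ) : AddCircle (1 : ℚ)) = c i (Additive.ofMul (totV κ χ w i)) := by
  induction w using CoprodI.induction_on with
  | one =>
    refine ⟨[], ?_, ?_⟩
    · intro x
      rw [map_one]
      have : Uw [] x = 1 := by simp [Uw]
      rw [this, map_one]
    · intro i
      rw [map_one]
      have : totQ i [] = 0 := by simp [totQ]
      rw [this]
      show ((0 : ℚ) : AddCircle (1 : ℚ)) = c i 0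
      rw [map_zero]; rfl
  | of j a =>
    obtain ⟨t, ht⟩ := QuotientAddGroup.mk_surjective (c j (Additive.ofMul (tHom (κ j) (χ j) a)))
    refine ⟨[(j, t)], ?_, ?_⟩
    · intro x
      have h1 : Uw [(j, t)] x = qU (ax j x) (ax_pure j x) (t : ℝ) := by simp [Uw]
      rw [lift_of, MonoidHom.comp_apply, rep_apply, h1, ← ht]
      rfl
    · intro i
      have h1 : totV κ χ (of a) = MonoidHom.mulSingle (fun j => P j → A j) j (tHom (κ j) (χ j) a) := by
        simp [totV]
      have h2 : totQ i [(j, t)] = if j = i then t else 0 := by simp [totQ]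
      rw [h1, h2]
      by_cases hij : j = i
      · subst hij
        rw [if_pos rfl, MonoidHom.mulSingle_apply, Pi.mulSingle_eq_same]
        exact ht
      · rw [if_neg hij, MonoidHom.mulSingle_apply, Pi.mulSingle_eq_of_ne (Ne.symm hij)]
        show ((0 : ℚ) : AddCircle (1 : ℚ)) = c i 0
        rw [map_zero]; rfl
  | mul v w hv hw =>
    obtain ⟨l, hl1, hl2⟩ := hv
    obtain ⟨l', hl1', hl2'⟩ := hw
    refine ⟨l ++ l', ?_, ?_⟩
    · intro x
      rw [map_mul, hl1, hl1', Uw_append, map_mul]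
    · intro i
      rw [totQ_append, map_mul]
      show ((totQ i l + totQ i l' : ℚ) : AddCircle (1 : ℚ)) =
        c i (Additive.ofMul (totV κ χ v i) + Additive.ofMul (totV κ χ w i))
      rw [map_add, ← hl2, ← hl2']; rfl

theorem Uw_int (j : Fin 3) (m : ℤ) (x : Fin 3 → ℝ) : MulAut.conj (Uw [(j, (m : ℚ))] x) = 1 := by
  have h1 : Uw [(j, (m : ℚ))] x = qU (ax j x) (ax_pure j x) (((m : ℚ) : ℝ)) := by simp [Uw]
  have h2 : (((m : ℚ) : ℝ)) = (m : ℝ) := by norm_cast
  rw [h1, h2]
  exact rotQ_int _ _ m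

theorem solution_exists (w : CoprodI (fun j => κ j)) (hμ : ∀ i, totV κ χ w i ≠ 1) (j : Fin 3)
    (a : P j → A j) (ha : a ≠ 1) : ∃ Φ : ∀ i, (P i → A i) →* MulAut (ℍ[ℝ])ˣ,
      lift (fun i => (Φ i).comp (tHom (κ i) (χ i))) w = 1 ∧ Φ j a ≠ 1 := by
  classical
  have hex : ∀ i, ∃ β : ℚ, ∃ ci : Additive (P i → A i) →+ AddCircle (1 : ℚ),
      1 / 6 ≤ β ∧ β ≤ 1 / 2 ∧ (i ≠ j → 1 / 3 ≤ β) ∧
      ci (Additive.ofMul (totV κ χ w i)) = (β : AddCircle (1 : ℚ)) ∧
      (∀ h : j = i, ci (Additive.ofMul (h ▸ a)) ≠ 0) := by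
    intro i
    have hμi : (Additive.ofMul (totV κ χ w i) : Additive (P i → A i)) ≠ 0 := hμ i
    by_cases hij : j = i
    · subst hij
      have ha' : (Additive.ofMul a : Additive (P j → A j)) ≠ 0 := ha
      obtain ⟨β, h1, h2, c, h3, h4⟩ := char_sep hμi ha'
      exact ⟨β, c, h1, h2, fun h => absurd rfl h, h3, fun _ => h4⟩
    · obtain ⟨β, h1, h2, c, h3⟩ := char_large hμi
      exact ⟨β, c, by linarith, h2, fun _ => h1, h3, fun h => absurd h hij⟩
  choose β c hβ1 hβ2 hβ3 hc hca using hex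
  obtain ⟨l, hl1, hl2⟩ := word_exists κ χ c w
  have hm : ∀ i, ∃ m : ℤ, totQ i l = β i + m := by
    intro i
    have h1 := hl2 i
    rw [hc] at h1
    have h2 : ((totQ i l - β i : ℚ) : AddCircle (1 : ℚ)) = 0 := by
      rw [AddCircle.coe_sub, h1, sub_self]
    obtain ⟨m, hm⟩ := (AddCircle.coe_eq_zero_iff (1 : ℚ)).1 h2
    refine ⟨m, ?_⟩
    have h3 : ((m • (1 : ℚ) : ℚ)) = m := by simp
    rw [h3] at hm
    linarith
  choose m hm using hm
  let l' : List (Fin 3 × ℚ) := l ++ ([(0, ((-m 0 : ℤ) : ℚ))] ++ ([(1, ((-m 1 : ℤ) : ℚ))] ++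
    [(2, ((-m 2 : ℤ) : ℚ))]))
  have hconj : ∀ x, MulAut.conj (Uw l' x) = MulAut.conj (Uw l x) := by
    intro x
    simp only [l']
    rw [Uw_append, Uw_append, Uw_append, map_mul, map_mul, map_mul, Uw_int, Uw_int, Uw_int]
    simp
  have htot : ∀ i, totQ i l' = β i := by
    intro i
    simp only [l']
    rw [totQ_append, totQ_append, totQ_append, hm]
    fin_cases i <;> simp [totQ]
  have htotR : ∀ i, tot i (castW l') = (β i : ℝ) := by
    intro i
    rw [tot_castW, htot]
  have hb : (0 ≤ β 0 + β 1 - β 2 ∧ β 0 + β 1 - β 2 < 1) ∧ (0 ≤ β 0 - β 1 + β 2 ∧ β 0 - β 1 + β 2 < 1)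
      ∧ (0 ≤ - β 0 + β 1 + β 2 ∧ - β 0 + β 1 + β 2 < 1) := by
    have a0 := hβ1 0
    have a1 := hβ1 1
    have a2 := hβ1 2
    have b0 := hβ2 0
    have b1 := hβ2 1
    have b2 := hβ2 2
    have c0 := hβ3 0
    have c1 := hβ3 1
    have c2 := hβ3 2
    fin_cases j
    · have d1 := c1 (by decide)
      have d2 := c2 (by decide)
      refine ⟨⟨?_, ?_⟩, ⟨?_, ?_⟩, ⟨?_, ?_⟩⟩ <;> linarith
    · have d1 := c0 (by decide)
      have d2 := c2 (by decide)
      refine ⟨⟨?_, ?_⟩, ⟨?_, ?_⟩, ⟨?_, ?_⟩⟩ <;> linarith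
    · have d1 := c0 (by decide)
      have d2 := c1 (by decide)
      refine ⟨⟨?_, ?_⟩, ⟨?_, ?_⟩, ⟨?_, ?_⟩⟩ <;> linarith
  obtain ⟨⟨e1, e2⟩, ⟨e3, e4⟩, ⟨e5, e6⟩⟩ := hb
  obtain ⟨x, r1, r2, r3⟩ := howie_quat (castW l')
    (by rw [htotR, htotR, htotR]; exact_mod_cast e1)
    (by rw [htotR, htotR, htotR]; exact_mod_cast e2)
    (by rw [htotR, htotR, htotR]; exact_mod_cast e3)
    (by rw [htotR, htotR, htotR]; exact_mod_cast e4)
    (by rw [htotR, htotR, htotR]; exact_mod_cast e5)
    (by rw [htotR, htotR, htotR]; exact_mod_cast e6)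
  rw [← Uw_val] at r1 r2 r3
  refine ⟨rep c x, ?_, ?_⟩
  · rw [hl1, ← hconj]
    exact conj_eq_one r1 r2 r3
  · rw [rep_apply]
    intro h
    exact rotC_ne (ax_pure j x) (hca j rfl) h

theorem core_B (S : Finset (CoprodI P)) (hcard : S.card ≤ 1)
    (hκ : ∀ j, ∀ a : κ j, (of (a : P j) : CoprodI P) ∈
      Subgroup.normalClosure (S : Set (CoprodI P)))
    (hS : ∀ s ∈ S, ∃ w : CoprodI (fun j => κ j),
      lift (fun j => (of : P j →* CoprodI P).comp (κ j).subtype) w = s)
    (hχ : ∀ j, χ j ≠ 1) : False := by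
  classical
  rcases Finset.card_le_one_iff_subset_singleton.1 hcard with ⟨s, hs⟩
  rcases Finset.subset_singleton_iff.1 hs with rfl | rfl
  · -- no relator
    apply hχ 0
    ext a
    have h1 := hκ 0 a
    have h2 : Subgroup.normalClosure ((∅ : Finset (CoprodI P)) : Set (CoprodI P)) = ⊥ := by
      rw [Finset.coe_empty, eq_bot_iff]
      exact Subgroup.normalClosure_le_normal (Set.empty_subset _)
    rw [h2, Subgroup.mem_bot] at h1
    have h3 : (a : P 0) = 1 := of_injective 0 (by rw [h1, map_one])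
    have h4 : a = 1 := Subtype.ext h3
    rw [h4, map_one, map_one]
  · obtain ⟨w, hw⟩ := hS s (Finset.mem_singleton_self s)
    by_cases hμ : ∃ i, totV κ χ w i = 1
    · obtain ⟨i, hi⟩ := hμ
      apply hχ i
      refine transfer κ χ (E := P i → A i)
        (fun j => (Pi.evalMonoidHom (fun j => P j → A j) i).comp
          (MonoidHom.mulSingle (fun j => P j → A j) j)) ?_ _ ?_ hκ i ?_
      · intro j
        by_cases hij : j = i
        · subst hij
          left
          intro a b hab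
          simpa using hab
        · right
          ext a : 1
          show (Pi.mulSingle j a : ∀ j, P j → A j) i = 1
          exact Pi.mulSingle_eq_of_ne (Ne.symm hij) _
      · intro s' hs'
        rw [Finset.coe_singleton, Set.mem_singleton_iff] at hs'
        subst hs'
        refine ⟨w, hw, ?_⟩
        rw [← hi]
        have : lift (fun j => ((Pi.evalMonoidHom (fun j => P j → A j) i).comp
            (MonoidHom.mulSingle (fun j => P j → A j) j)).comp (tHom (κ j) (χ j))) =
            (Pi.evalMonoidHom (fun j => P j → A j) i).comp (totV κ χ) := by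
          apply CoprodI.ext_hom
          intro j
          ext b : 1
          simp [totV]
        exact DFunLike.congr_fun this w
      · intro a b hab
        simpa using hab
    · simp only [not_exists] at hμ
      let Λ := {Φ : ∀ i, (P i → A i) →* MulAut (ℍ[ℝ])ˣ //
        lift (fun i => (Φ i).comp (tHom (κ i) (χ i))) w = 1}
      let Ψ : ∀ j, (P j → A j) →* (Λ → MulAut (ℍ[ℝ])ˣ) := fun j =>
        { toFun := fun a Φ => Φ.1 j a
          map_one' := by funext Φ; exact map_one _
          map_mul' := by intro a b; funext Φ; exact map_mul _ _ _ }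
      have hinj : ∀ j, Function.Injective (Ψ j) := by
        intro j
        rw [injective_iff_map_eq_one]
        intro a ha
        by_contra hne
        obtain ⟨Φ, h1, h2⟩ := solution_exists κ χ w hμ j a hne
        exact h2 (congrFun ha ⟨Φ, h1⟩)
      apply hχ 0
      refine transfer κ χ Ψ (fun j => Or.inl (hinj j)) _ ?_ hκ 0 (hinj 0)
      intro s' hs'
      rw [Finset.coe_singleton, Set.mem_singleton_iff] at hs'
      subst hs'
      refine ⟨w, hw, ?_⟩
      funext Φ
      have : (Pi.evalMonoidHom (fun _ : Λ => MulAut (ℍ[ℝ])ˣ) Φ).comp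
          (lift (fun j => (Ψ j).comp (tHom (κ j) (χ j)))) =
          lift (fun i => (Φ.1 i).comp (tHom (κ i) (χ i))) := by
        apply CoprodI.ext_hom
        intro j
        ext b : 1
        simp [Ψ]
      have h2 := DFunLike.congr_fun this w
      rw [Φ.2] at h2
      exact h2

end

theorem three_core {L : Fin 3 → Type*} [∀ j, Group (L j)] [∀ j, Nontrivial (L j)]
    (hL : ∀ j, LocHypoAb (L j)) (S : Finset (CoprodI L))
    (hS : Subgroup.normalClosure (S : Set (CoprodI L)) = ⊤) : 2 ≤ S.card := by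
  classical
  by_contra hlt
  obtain ⟨B, S', hB, hcard, hne, hw⟩ := reduce S hS
  have hnormal : ∀ j, (kap B (S' : Set (CoprodI (fun j => B j))) j).Normal := fun j =>
    Subgroup.normalClosure_normal.comap (ofB B j)
  refine core_B (fun j => kap B (S' : Set (CoprodI (fun j => B j))) j)
    (fun j => Abelianization.of (G := kap B (S' : Set (CoprodI (fun j => B j))) j)) S' (by omega)
    (fun j a => a.2) hw ?_
  intro j h
  apply hL j (B j) (hB j) _ (hnormal j) (hne j)
  rw [← Abelianization.ker_of, h]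
  exact MonoidHom.ker_one

end Pool.Agent.WFP
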