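import Pool.Agent.WFP.CoreA
import Pool.Agent.WFP.CoreB

/-!
# Passing to quotients of some of the factors
-/

set_option autoImplicit false

namespace Pool.Agent.WFP

open Monoid Monoid.CoprodI

/-- The homomorphism `*G i → *L j` given by homomorphisms `G (e j) → L j`; the other factors are
killed. -/
noncomputable def pushHom {ι J : Type*} {G : ι → Type*} [∀ i, Group (G i)] {L : J → Type*}
    [∀ j, Group (L j)] (e : J → ι) (q : ∀ j, G (e j) →* L j) : CoprodI G →* CoprodI L :=
  letI := Classical.propDecidable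
  lift (fun i => if h : ∃ j, e j = i then h.choose_spec ▸ (of.comp (q h.choose)) else 1)

theorem pushHom_of {ι J : Type*} {G : ι → Type*} [∀ i, Group (G i)] {L : J → Type*}
    [∀ j, Group (L j)] (e : J → ι) (he : Function.Injective e) (q : ∀ j, G (e j) →* L j) (j : J)
    (g : G (e j)) : pushHom e q (of g) = of (q j g) := by
  classical
  unfold pushHom
  rw [lift_of]
  have hex : ∃ j', e j' = e j := ⟨j, rfl⟩
  rw [dif_pos hex]
  have key : ∀ (j' : J) (h : e j' = e j),
      ((h ▸ (of.comp (q j') : G (e j') →* CoprodI L)) : G (e j) →* CoprodI L) g = of (q j g) := by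
    intro j' h
    have hj : j' = j := he h
    subst hj
    rfl
  exact key _ hex.choose_spec

theorem pushHom_of_not {ι J : Type*} {G : ι → Type*} [∀ i, Group (G i)] {L : J → Type*}
    [∀ j, Group (L j)] (e : J → ι) (q : ∀ j, G (e j) →* L j) (i : ι)
    (hi : ¬ ∃ j, e j = i) (g : G i) : pushHom e q (of g) = 1 := by
  classical
  unfold pushHom
  rw [lift_of, dif_neg hi]
  rfl

theorem pushHom_surjective {ι J : Type*} {G : ι → Type*} [∀ i, Group (G i)] {L : J → Type*}
    [∀ j, Group (L j)] (e : J → ι) (he : Function.Injective e) (q : ∀ j, G (e j) →* L j)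
    (hq : ∀ j, Function.Surjective (q j)) : Function.Surjective (pushHom e q) := by
  classical
  rw [← MonoidHom.range_eq_top, eq_top_iff]
  intro x _
  induction x using CoprodI.induction_on with
  | one => exact Subgroup.one_mem _
  | of j x =>
    obtain ⟨g, rfl⟩ := hq j x
    exact ⟨of g, pushHom_of e he q j g⟩
  | mul x y hx hy => exact Subgroup.mul_mem _ (hx trivial) (hy trivial)

theorem push {ι J : Type*} {G : ι → Type*} [∀ i, Group (G i)] {L : J → Type*}
    [∀ j, Group (L j)] (e : J → ι) (he : Function.Injective e) (q : ∀ j, G (e j) →* L j)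
    (hq : ∀ j, Function.Surjective (q j)) (S : Finset (CoprodI G))
    (hS : Subgroup.normalClosure (S : Set (CoprodI G)) = ⊤) :
    ∃ S' : Finset (CoprodI L), S'.card ≤ S.card ∧
      Subgroup.normalClosure (S' : Set (CoprodI L)) = ⊤ := by
  classical
  have hsurj : Function.Surjective (pushHom e q) := by
    rw [← MonoidHom.range_eq_top, eq_top_iff]
    intro x _
    induction x using CoprodI.induction_on with
    | one => exact Subgroup.one_mem _
    | of j x =>
      obtain ⟨g, rfl⟩ := hq j x
      exact ⟨of g, pushHom_of e he q j g⟩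
    | mul x y hx hy => exact Subgroup.mul_mem _ (hx trivial) (hy trivial)
  refine ⟨S.image (pushHom e q), Finset.card_image_le, ?_⟩
  rw [Finset.coe_image, ← Subgroup.map_normalClosure _ _ hsurj, hS]
  exact Subgroup.map_top_of_surjective _ hsurj

theorem weight_many {ι : Type*} (G : ι → Type*) [∀ i, Group (G i)] {J : Type*} [Finite J]
    (e : J → ι) (he : Function.Injective e) {C : Type*} [Finite C] (k : C → Type*)
    [∀ c, Field (k c)]
    (hG : ∀ j, ∃ (N : Subgroup (G (e j))) (_ : N.Normal), N ≠ ⊤ ∧ LocHypo k (G (e j) ⧸ N))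
    (S : Finset (CoprodI G)) (hS : Subgroup.normalClosure (S : Set (CoprodI G)) = ⊤) :
    Nat.card J ≤ Nat.card C * S.card := by
  choose N hN hne hL using hG
  obtain ⟨S', hcard, hS'⟩ := push (L := fun j => G (e j) ⧸ N j) e he
    (fun j => QuotientGroup.mk' (N j)) (fun j => QuotientGroup.mk'_surjective (N j)) S hS
  have : ∀ j, Nontrivial (G (e j) ⧸ N j) := fun j => QuotientGroup.nontrivial_iff.2 (hne j)
  exact le_trans (weight_core k hL S' hS') (Nat.mul_le_mul_left _ hcard)

theorem weight_three {ι : Type*} (G : ι → Type*) [∀ i, Group (G i)]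
    (e : Fin 3 → ι) (he : Function.Injective e)
    (hG : ∀ j, ∃ (N : Subgroup (G (e j))) (_ : N.Normal), N ≠ ⊤ ∧ LocHypoAb (G (e j) ⧸ N))
    (S : Finset (CoprodI G)) (hS : Subgroup.normalClosure (S : Set (CoprodI G)) = ⊤) :
    2 ≤ S.card := by
  choose N hN hne hL using hG
  obtain ⟨S', hcard, hS'⟩ := push (L := fun j => G (e j) ⧸ N j) e he
    (fun j => QuotientGroup.mk' (N j)) (fun j => QuotientGroup.mk'_surjective (N j)) S hS
  have : ∀ j, Nontrivial (G (e j) ⧸ N j) := fun j => QuotientGroup.nontrivial_iff.2 (hne j)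
  exact le_trans (three_core hL S' hS') hcard

end Pool.Agent.WFP
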