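import Pool.Agent.WFP.Graph
import Pool.Agent.WFP.Push

/-!
# Relators with at most three of the factors each
-/

set_option autoImplicit false
set_option linter.unusedSectionVars false

namespace Pool.Agent.WFP

open Monoid Monoid.CoprodI

section

variable {J : Type*} {M : J → Type*} [∀ j, Group (M j)]

/-- the retraction onto the free product of the factors with index in `T` -/
noncomputable def ret (M : J → Type*) [∀ j, Group (M j)] (T : Set J) : CoprodI M →* CoprodI M :=
  letI := Classical.propDecidable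
  lift (fun j => if j ∈ T then (of (M := M) (i := j)) else 1)

theorem ret_of_mem {T : Set J} {j : J} (hj : j ∈ T) (a : M j) :
    ret M T (of a) = of a := by
  unfold ret
  rw [lift_of, if_pos hj]

theorem ret_of_notMem {T : Set J} {j : J} (hj : j ∉ T) (a : M j) :
    ret M T (of a) = 1 := by
  unfold ret
  rw [lift_of, if_neg hj]
  rfl

theorem ret_mem (T : Set J) (w : CoprodI M) : ret M T w ∈ sup M T := by
  induction w using CoprodI.induction_on with
  | one => rw [map_one]; exact Subgroup.one_mem _
  | of j a =>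
    by_cases hj : j ∈ T
    · rw [ret_of_mem hj]; exact of_mem_sup hj a
    · rw [ret_of_notMem hj]; exact Subgroup.one_mem _
  | mul x y hx hy => rw [map_mul]; exact Subgroup.mul_mem _ hx hy

theorem ret_eq {T : Set J} {w : CoprodI M} (hw : w ∈ sup M T) : ret M T w = w := by
  have hle : sup M T ≤ (ret M T).eqLocus (MonoidHom.id _) := by
    refine iSup₂_le ?_
    rintro j hj _ ⟨a, rfl⟩
    exact ret_of_mem hj a
  exact hle hw

theorem ret_comm {N : J → Type*} [∀ j, Group (N j)] (f : ∀ j, M j →* N j) (T : Set J)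
    (w : CoprodI M) :
    ret N T (lift (fun j => (of : N j →* CoprodI N).comp (f j)) w) =
      lift (fun j => (of : N j →* CoprodI N).comp (f j)) (ret M T w) := by
  have : (ret N T).comp (lift (fun j => (of : N j →* CoprodI N).comp (f j))) =
      (lift (fun j => (of : N j →* CoprodI N).comp (f j))).comp (ret M T) := by
    apply CoprodI.ext_hom
    intro j
    ext a
    simp only [MonoidHom.comp_apply, lift_of]
    by_cases hj : j ∈ T
    · rw [ret_of_mem hj, ret_of_mem hj, lift_of, MonoidHom.comp_apply]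
    · rw [ret_of_notMem hj, ret_of_notMem hj, map_one]
  exact DFunLike.congr_fun this w

end

theorem core_C {J : Type*} [Finite J] {P : J → Type*} [∀ j, Group (P j)]
    (κ : ∀ j, Subgroup (P j)) [∀ j, (κ j).Normal]
    {A : J → Type*} [∀ j, CommGroup (A j)] (χ : ∀ j, κ j →* A j)
    (S : Finset (CoprodI P))
    (hκ : ∀ j, ∀ a : κ j, (of (a : P j) : CoprodI P) ∈
      Subgroup.normalClosure (S : Set (CoprodI P)))
    (T : CoprodI P → Finset J) (hT : ∀ s ∈ S, (T s).card ≤ 3)
    (hS : ∀ s ∈ S, ∃ w : CoprodI (fun j => κ j), w ∈ sup (fun j => κ j) (T s : Set J) ∧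
      lift (fun j => (of : P j →* CoprodI P).comp (κ j).subtype) w = s)
    (hχ : ∀ j, χ j ≠ 1) : Nat.card J ≤ 2 * S.card := by
  classical
  have := Fintype.ofFinite J
  by_contra hlt
  rw [not_le] at hlt
  choose! w hw1 hw2 using hS
  let F : CoprodI (fun j => κ j) →* CoprodI (fun j => P j → A j) :=
    lift (fun j => (of (M := fun j => P j → A j) (i := j)).comp (tHom (κ j) (χ j)))
  have hF : ∀ j (a : κ j), F (of a) = of (M := fun j => P j → A j) (i := j)
      (tHom (κ j) (χ j) a) := by
    intro j a
    simp only [F]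
    rw [lift_of, MonoidHom.comp_apply]
  obtain ⟨I, _, ⟨i, hi⟩, E, hE, Ψ, hinj, htriv, hsol⟩ := abelian_graph
    (U := fun j => P j → A j) (fun s => F (w s)) T S.card S Finset.univ rfl hT
    (fun s hs => map_sup F (fun j hj a => by rw [hF]; exact of_mem_sup hj _) (hw1 s hs))
    (by rw [Finset.card_univ, ← Nat.card_eq_fintype_card]; exact hlt)
  apply hχ i
  refine transfer κ χ Ψ ?_ (S : Set (CoprodI P)) ?_ hκ i (hinj i hi)
  · intro j
    by_cases hj : j ∈ I
    · exact Or.inl (hinj j hj)
    · exact Or.inr (htriv j hj)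
  · intro s hs
    refine ⟨w s, hw2 s hs, ?_⟩
    rw [← hsol s hs]
    have : lift (fun j => (Ψ j).comp (tHom (κ j) (χ j))) = (lift Ψ).comp F := by
      apply CoprodI.ext_hom
      intro j
      ext a
      simp only [MonoidHom.comp_apply, lift_of, hF]
    exact DFunLike.congr_fun this (w s)

theorem graph_core {J : Type*} [Finite J] {L : J → Type*} [∀ j, Group (L j)]
    [∀ j, Nontrivial (L j)] (hL : ∀ j, LocHypoAb (L j)) (S : Finset (CoprodI L))
    (hS : Subgroup.normalClosure (S : Set (CoprodI L)) = ⊤)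
    (h3 : ∀ s ∈ S, ∃ T : Finset J, T.card ≤ 3 ∧ s ∈ sup L (T : Set J)) :
    Nat.card J ≤ 2 * S.card := by
  classical
  obtain ⟨B, S', hB, hcard, hSS', hne, hw⟩ := reduce' S hS
  have hnormal : ∀ j, (kap B (S' : Set (CoprodI (fun j => B j))) j).Normal := fun j =>
    Subgroup.normalClosure_normal.comap (ofB B j)
  choose! T hT hTs using h3
  refine le_trans (core_C (fun j => kap B (S' : Set (CoprodI (fun j => B j))) j)
    (fun j => Abelianization.of (G := kap B (S' : Set (CoprodI (fun j => B j))) j)) S'
    (fun j a => a.2) (fun s => T (inc B s)) (fun s hs => hT _ (hSS' s hs)) ?_ ?_)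
    (Nat.mul_le_mul_left _ hcard)
  · intro s hs
    obtain ⟨w, hws⟩ := hw s hs
    refine ⟨ret _ (T (inc B s) : Set J) w, ret_mem _ _, ?_⟩
    have h1 := ret_comm (M := fun j => kap B (S' : Set (CoprodI (fun j => B j))) j)
      (N := fun j => B j)
      (fun j => (kap B (S' : Set (CoprodI (fun j => B j))) j).subtype) (T (inc B s) : Set J) w
    refine h1.symm.trans ?_
    have h2 : lift (fun j => (of (M := fun j => B j) (i := j)).comp
        (kap B (S' : Set (CoprodI (fun j => B j))) j).subtype) w = s := hws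
    rw [h2]
    apply inc_injective B
    have h3 := ret_comm (M := fun j => B j) (N := L) (fun j => (B j).subtype)
      (T (inc B s) : Set J) s
    exact h3.symm.trans (ret_eq (hTs _ (hSS' s hs)))
  · intro j h
    apply hL j (B j) (hB j) _ (hnormal j) (hne j)
    rw [← Abelianization.ker_of, h]
    exact MonoidHom.ker_one

theorem weight_graph {ι : Type*} (G : ι → Type*) [∀ i, Group (G i)] {J : Type*} [Finite J]
    (e : J → ι) (he : Function.Injective e)
    (hG : ∀ j, ∃ (N : Subgroup (G (e j))) (_ : N.Normal), N ≠ ⊤ ∧ LocHypoAb (G (e j) ⧸ N))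
    (S : Finset (CoprodI G)) (hS : Subgroup.normalClosure (S : Set (CoprodI G)) = ⊤)
    (h3 : ∀ s ∈ S, ∃ T : Finset J, T.card ≤ 3 ∧
      s ∈ ⨆ (i : ι) (_ : ∀ j, e j = i → j ∈ T), (of (M := G) (i := i)).range) :
    Nat.card J ≤ 2 * S.card := by
  classical
  choose N hN hne hL using hG
  let q : ∀ j, G (e j) →* G (e j) ⧸ N j := fun j => QuotientGroup.mk' (N j)
  have hq : ∀ j, Function.Surjective (q j) := fun j => QuotientGroup.mk'_surjective (N j)
  have hsurj : Function.Surjective (pushHom (L := fun j => G (e j) ⧸ N j) e q) :=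
    pushHom_surjective e he q hq
  have : ∀ j, Nontrivial (G (e j) ⧸ N j) := fun j => QuotientGroup.nontrivial_iff.2 (hne j)
  refine le_trans (graph_core hL (S.image (pushHom e q)) ?_ ?_)
    (Nat.mul_le_mul_left _ Finset.card_image_le)
  · rw [Finset.coe_image, ← Subgroup.map_normalClosure _ _ hsurj, hS]
    exact Subgroup.map_top_of_surjective _ hsurj
  · intro s' hs'
    obtain ⟨s, hs, rfl⟩ := Finset.mem_image.1 hs'
    obtain ⟨T, hT, hsT⟩ := h3 s hs
    refine ⟨T, hT, ?_⟩
    have hle : (⨆ (i : ι) (_ : ∀ j, e j = i → j ∈ T), (of (M := G) (i := i)).range) ≤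
        (sup (fun j => G (e j) ⧸ N j) (T : Set J)).comap (pushHom e q) := by
      refine iSup₂_le ?_
      rintro i hi _ ⟨g, rfl⟩
      by_cases hex : ∃ j, e j = i
      · obtain ⟨j, rfl⟩ := hex
        rw [Subgroup.mem_comap, pushHom_of e he q j g]
        exact of_mem_sup (hi j rfl) _
      · rw [Subgroup.mem_comap, pushHom_of_not e q i hex g]
        exact Subgroup.one_mem _
    exact hle hsT

end Pool.Agent.WFP
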