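import Mathlib

/-!
# The extension lemma

`P` a group, `κ ⊴ P`, `χ : κ → A` a character with values in a commutative group, `t : κ → (P → A)`
the map `t a g = χ (g a g⁻¹)`.  If `ψ : (P → A) → E` is an injective homomorphism, then `P` acts on
the *set* `E` in such a way that every `a ∈ κ` acts as right multiplication by `ψ (t a)⁻¹`.
-/

set_option autoImplicit false
set_option linter.unusedSectionVars false

namespace Pool.Agent.WFP

section
variable {P : Type*} [Group P] (κ : Subgroup P) [κ.Normal] {A : Type*} [CommGroup A] (χ : κ →* A)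

/-- `t a g = χ (g a g⁻¹)`. -/
def tHom : κ →* (P → A) where
  toFun a g := χ ⟨g * a * g⁻¹, Subgroup.Normal.conj_mem inferInstance (a : P) a.2 g⟩
  map_one' := by
    funext g
    have : (⟨g * ((1 : κ) : P) * g⁻¹, Subgroup.Normal.conj_mem inferInstance ((1 : κ) : P) (1 : κ).2 g⟩ : κ) = 1 := by
      apply Subtype.ext; simp
    simp only [this, map_one]; rfl
  map_mul' a b := by
    funext g
    have : (⟨g * ((a * b : κ) : P) * g⁻¹, Subgroup.Normal.conj_mem inferInstance ((a * b : κ) : P) (a * b : κ).2 g⟩ : κ)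
        = ⟨g * a * g⁻¹, Subgroup.Normal.conj_mem inferInstance (a : P) a.2 g⟩ *
          ⟨g * b * g⁻¹, Subgroup.Normal.conj_mem inferInstance (b : P) b.2 g⟩ := by
      apply Subtype.ext; simp [mul_assoc]
    simp only [this, map_mul]; rfl

theorem tHom_apply_one (a : κ) : tHom κ χ a 1 = χ a := by
  have : (⟨1 * (a : P) * 1⁻¹, Subgroup.Normal.conj_mem inferInstance (a : P) a.2 1⟩ : κ) = a := by
    apply Subtype.ext; simp
  show χ _ = χ a
  rw [this]

theorem tHom_apply (a : κ) (g : P) :
    tHom κ χ a g = χ ⟨g * a * g⁻¹, Subgroup.Normal.conj_mem inferInstance (a : P) a.2 g⟩ := rfl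

/-- The torsor of `χ`-equivariant functions. -/
@[ext] structure Y where
  /-- the underlying function -/
  val : P → A
  /-- equivariance -/
  prop : ∀ (a : κ) (g : P), val (a * g) = χ a * val g

/-- `P` acts on the torsor by right translation. -/
instance : MulAction P (Y κ χ) where
  smul p f := ⟨fun g => f.1 (g * p), fun a g => by rw [mul_assoc]; exact f.2 a (g * p)⟩
  one_smul f := by apply Y.ext; funext g; show f.1 (g * 1) = f.1 g; rw [mul_one]
  mul_smul p q f := by
    apply Y.ext; funext g; show f.1 (g * (p * q)) = f.1 (g * p * q); rw [mul_assoc]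

theorem smul_val (p : P) (f : Y κ χ) (g : P) : (p • f).1 g = f.1 (g * p) := rfl

theorem smul_kappa (a : κ) (f : Y κ χ) : ((a : P) • f).1 = tHom κ χ a * f.1 := by
  funext g
  rw [smul_val]
  have h := f.2 ⟨g * a * g⁻¹, Subgroup.Normal.conj_mem inferInstance (a : P) a.2 g⟩ g
  simp only [inv_mul_cancel_right] at h
  rw [h]; rfl

/-- A base point. -/
theorem exists_base : Nonempty (Y κ χ) := by
  classical
  -- right cosets of κ
  let r : Setoid P := QuotientGroup.rightRel κ
  let rep : P → P := fun g => (Quotient.mk r g).out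
  have hrep : ∀ g, g * (rep g)⁻¹ ∈ κ := by
    intro g
    have h : r (rep g) g := Quotient.exact (Quotient.out_eq (Quotient.mk r g))
    have h' := QuotientGroup.rightRel_apply.1 h
    exact h'
  have hcon : ∀ (a : κ) g, rep (a * g) = rep g := by
    intro a g
    have : Quotient.mk r (a * g) = Quotient.mk r g := by
      apply Quotient.sound
      show r _ _
      rw [QuotientGroup.rightRel_apply]
      have : g * (a * g)⁻¹ = (a : P)⁻¹ := by group
      rw [this]; exact κ.inv_mem a.2
    simp only [rep, this]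
  refine ⟨⟨fun g => χ ⟨g * (rep g)⁻¹, hrep g⟩, ?_⟩⟩
  intro a g
  rw [← map_mul]
  congr 1
  apply Subtype.ext
  simp [hcon a g, mul_assoc]

/-- The subgroup of `κ`-invariant functions. -/
def Inv : Subgroup (P → A) where
  carrier := {u | ∀ (a : κ) (g : P), u (a * g) = u g}
  mul_mem' {u v} hu hv a g := by simp only [Pi.mul_apply, hu a g, hv a g]
  one_mem' a g := rfl
  inv_mem' {u} hu a g := by simp only [Pi.inv_apply, hu a g]

variable {κ χ}

theorem div_mem_Inv (f h : Y κ χ) : f.1 / h.1 ∈ Inv (A := A) κ := by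
  intro a g
  simp only [Pi.div_apply, f.2 a g, h.2 a g]
  rw [mul_div_mul_left_eq_div]

/-- multiply a base point by an invariant function -/
def addInv (u : P → A) (hu : u ∈ Inv (A := A) κ) (f : Y κ χ) : Y κ χ :=
  ⟨u * f.1, fun a g => by simp only [Pi.mul_apply, hu a g, f.2 a g]; rw [mul_left_comm]⟩

variable {E : Type*} [Group E] (ψ : (P → A) →* E)

/-- The parametrisation of `E`. -/
noncomputable def Phi (y₀ : Y κ χ) (x : Y κ χ × (E ⧸ ((Inv (A := A) κ).map ψ))) : E :=
  x.2.out * (ψ (x.1.1 / y₀.1))⁻¹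

theorem Phi_bij (hψ : Function.Injective ψ) (y₀ : Y κ χ) : Function.Bijective (Phi ψ y₀) := by
  constructor
  · rintro ⟨f, c⟩ ⟨f', c'⟩ h
    simp only [Phi] at h
    have hc : c = c' := by
      rw [← QuotientGroup.out_eq' c, ← QuotientGroup.out_eq' c']
      rw [QuotientGroup.eq]
      refine ⟨(f.1 / y₀.1)⁻¹ * (f'.1 / y₀.1), ?_, ?_⟩
      · exact (Inv κ).mul_mem ((Inv κ).inv_mem (div_mem_Inv f y₀)) (div_mem_Inv f' y₀)
      · have h2 : c'.out = c.out * (ψ (f.1 / y₀.1))⁻¹ * ψ (f'.1 / y₀.1) := by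
          rw [h]; group
        rw [map_mul, map_inv, h2]; group
    subst hc
    have h1 : ψ (f.1 / y₀.1) = ψ (f'.1 / y₀.1) := by
      have := mul_left_cancel h
      exact inv_injective this
    have h2 := hψ h1
    have h3 : f.1 = f'.1 := by
      have := congrArg (· * y₀.1) h2
      simpa using this
    have h4 : f = f' := Y.ext h3
    rw [h4]
  · intro e
    have h : (QuotientGroup.mk (s := (Inv (A := A) κ).map ψ) e).out⁻¹ * e ∈ (Inv (A := A) κ).map ψ := by
      rw [← QuotientGroup.eq]
      exact QuotientGroup.out_eq' _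
    obtain ⟨u, hu, hue⟩ := h
    refine ⟨⟨addInv u⁻¹ ((Inv κ).inv_mem hu) y₀, QuotientGroup.mk e⟩, ?_⟩
    simp only [Phi, addInv]
    rw [mul_div_cancel_right, map_inv, inv_inv, hue]
    group

/-- **Extension lemma.** -/
theorem extension (hψ : Function.Injective ψ) :
    ∃ ρ : P →* Equiv.Perm E, ∀ (a : κ) (e : E), ρ a e = e * (ψ (tHom κ χ a))⁻¹ := by
  obtain ⟨y₀⟩ := exists_base κ χ
  let Φ : Y κ χ × (E ⧸ ((Inv (A := A) κ).map ψ)) ≃ E := Equiv.ofBijective _ (Phi_bij ψ hψ y₀)
  have hΦ : ∀ x, Φ x = x.2.out * (ψ (x.1.1 / y₀.1))⁻¹ := fun x => rfl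
  let act : P →* Equiv.Perm (Y κ χ × (E ⧸ ((Inv (A := A) κ).map ψ))) :=
    { toFun := fun p => Equiv.prodCongr (MulAction.toPerm p) (Equiv.refl _)
      map_one' := by
        ext x <;> simp
      map_mul' := by
        intro p q
        ext x <;> simp [mul_smul] }
  let ρ : P →* Equiv.Perm E :=
    { toFun := fun p => (Φ.symm.trans (act p)).trans Φ
      map_one' := by
        rw [map_one]
        ext x; simp
      map_mul' := by
        intro p q
        rw [map_mul]
        ext x; simp }
  refine ⟨ρ, ?_⟩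
  intro a e
  obtain ⟨⟨f, c⟩, rfl⟩ := Φ.surjective e
  have h1 : ρ (a : P) (Φ (f, c)) = Φ ((a : P) • f, c) := by
    show Φ (act (a : P) (Φ.symm (Φ (f, c)))) = _
    rw [Equiv.symm_apply_apply]
    rfl
  rw [h1, hΦ, hΦ]
  simp only
  rw [smul_kappa, mul_div_assoc, map_mul, mul_inv_rev, mul_assoc]

end

end Pool.Agent.WFP
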