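import Pool.Agent.WFP.HowieEmbed

/-!
# Many abelian groups, relators with at most three groups each

`U j` (`j ∈ J`) abelian groups, `w s` (`s ∈ F`) elements of `*U j`, each of them in the free product
of at most three of the `U j`; `V ⊆ J` with more than `2 |F|` elements.  Then there is a nonempty
`I ⊆ V` such that the `U j`, `j ∈ I`, embed into a group in which all `w s` become trivial after
the other `U j` are killed.
-/

set_option autoImplicit false
set_option linter.unusedSectionVars false

namespace Pool.Agent.WFP

open Monoid Monoid.CoprodI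

universe u v

section Supp

variable {J : Type*} {M : J → Type*} [∀ j, Group (M j)]

/-- the subgroup generated by the factors with index in `T` -/
def sup (M : J → Type*) [∀ j, Group (M j)] (T : Set J) : Subgroup (CoprodI M) :=
  ⨆ j ∈ T, (of (M := M) (i := j)).range

theorem lift_congr_on {T : Set J} {w : CoprodI M} (hw : w ∈ sup M T) {E : Type*} [Group E]
    (Ψ Ψ' : ∀ j, M j →* E) (h : ∀ j ∈ T, Ψ j = Ψ' j) : lift Ψ w = lift Ψ' w := by
  have hle : sup M T ≤ (lift Ψ).eqLocus (lift Ψ') := by
    refine iSup₂_le ?_
    rintro j hj _ ⟨a, rfl⟩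
    show lift Ψ (of a) = lift Ψ' (of a)
    rw [lift_of, lift_of, h j hj]
  exact hle hw

theorem map_sup {I : Type*} {N : I → Type*} [∀ i, Group (N i)] {T : Set J} {T' : Set I}
    (f : CoprodI M →* CoprodI N) (h : ∀ j ∈ T, ∀ a : M j, f (of a) ∈ sup N T') {w : CoprodI M}
    (hw : w ∈ sup M T) : f w ∈ sup N T' := by
  have hle : sup M T ≤ (sup N T').comap f := by
    refine iSup₂_le ?_
    rintro j hj _ ⟨a, rfl⟩
    exact h j hj a
  exact hle hw

theorem of_mem_sup {T : Set J} {j : J} (hj : j ∈ T) (a : M j) : (of a : CoprodI M) ∈ sup M T := by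
  have h1 : (of (M := M) (i := j)).range ≤ sup M T := le_iSup₂_of_le j hj le_rfl
  exact h1 ⟨a, rfl⟩

end Supp

section

variable {J : Type v} [DecidableEq J] {U : J → Type u} [∀ j, CommGroup (U j)]

theorem tv_of_notMem {T : Set J} {w : CoprodI U} (hw : w ∈ sup U T) {i : J} (hi : i ∉ T) :
    tv U w i = 1 := by
  have h1 : tv U w i = lift (fun j => (Pi.evalMonoidHom U i).comp (MonoidHom.mulSingle U j)) w := by
    have : (Pi.evalMonoidHom U i).comp (tv U) =
        lift (fun j => (Pi.evalMonoidHom U i).comp (MonoidHom.mulSingle U j)) := by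
      apply CoprodI.ext_hom
      intro j
      ext b : 1
      simp [tv]
    exact DFunLike.congr_fun this w
  rw [h1, lift_congr_on hw _ (fun _ => 1)]
  · have : lift (fun _ => (1 : _ →* U i)) = (1 : CoprodI U →* U i) := by
      apply CoprodI.ext_hom
      intro j
      ext b : 1
      simp
    rw [this]; rfl
  · intro j hj
    ext a : 1
    show (Pi.mulSingle j a : ∀ j, U j) i = 1
    have hne : i ≠ j := by rintro rfl; exact hi hj
    exact Pi.mulSingle_eq_of_ne hne _

/-- a family of homs which is trivial on all factors but one -/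
theorem lift_single {w : CoprodI U} {T : Set J} (hw : w ∈ sup U T) {E : Type*} [Group E]
    (Ψ : ∀ j, U j →* E) (l : J) (h : ∀ j ∈ T, j ≠ l → Ψ j = 1) :
    lift Ψ w = Ψ l (tv U w l) := by
  rw [lift_congr_on hw Ψ (fun j => ((Ψ l).comp (Pi.evalMonoidHom U l)).comp
    (MonoidHom.mulSingle U j))]
  · have : lift (fun j => ((Ψ l).comp (Pi.evalMonoidHom U l)).comp (MonoidHom.mulSingle U j)) =
        ((Ψ l).comp (Pi.evalMonoidHom U l)).comp (tv U) := by
      apply CoprodI.ext_hom
      intro j
      ext b : 1
      simp [tv]
    rw [this]; rfl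
  · intro j hj
    by_cases hjl : j = l
    · subst hjl
      ext a : 1
      simp
    · rw [h j hj hjl]
      ext a : 1
      show 1 = Ψ l ((Pi.mulSingle j a : ∀ j, U j) l)
      rw [Pi.mulSingle_eq_of_ne (Ne.symm hjl), map_one]

/-- the conclusion of the theorem -/
def Sol (U : J → Type u) [∀ j, CommGroup (U j)] {σ : Type*} (F : Finset σ)
    (w : σ → CoprodI U) (V I : Finset J) : Prop :=
  I ⊆ V ∧ I.Nonempty ∧ ∃ (E : Type u) (_ : Group E) (Ψ : ∀ j, U j →* E),
    (∀ j ∈ I, Function.Injective (Ψ j)) ∧ (∀ j, j ∉ I → Ψ j = 1) ∧ ∀ s ∈ F, lift Ψ (w s) = 1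

theorem sol_single {σ : Type*} (F : Finset σ) (w : σ → CoprodI U) (V : Finset J) {i : J}
    (hi : i ∈ V) (h : ∀ s ∈ F, tv U (w s) i = 1) : Sol U F w V {i} := by
  refine ⟨Finset.singleton_subset_iff.2 hi, Finset.singleton_nonempty i, U i, inferInstance,
    fun j => (Pi.evalMonoidHom U i).comp (MonoidHom.mulSingle U j), ?_, ?_, ?_⟩
  · intro j hj
    rw [Finset.mem_singleton] at hj
    subst hj
    intro a b hab
    simpa using hab
  · intro j hj
    rw [Finset.mem_singleton] at hj
    ext a : 1
    show (Pi.mulSingle j a : ∀ j, U j) i = 1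
    exact Pi.mulSingle_eq_of_ne (Ne.symm hj) _
  · intro s hs
    rw [← h s hs]
    have : (Pi.evalMonoidHom U i).comp (tv U) =
        lift (fun j => (Pi.evalMonoidHom U i).comp (MonoidHom.mulSingle U j)) := by
      apply CoprodI.ext_hom
      intro j
      ext b : 1
      simp [tv]
    exact (DFunLike.congr_fun this (w s)).symm

theorem exists_two {σ : Type*} [DecidableEq σ] (F : Finset σ) (T : σ → Finset J)
    (hT : ∀ s ∈ F, (T s).card ≤ 3) (V : Finset J) (hV : 2 * F.card < V.card)
    (hdeg : ∀ i ∈ V, ∃ s ∈ F, i ∈ T s) :
    ∃ s ∈ F, ∃ i ∈ V, ∃ j ∈ V, i ≠ j ∧ i ∈ T s ∧ j ∈ T s ∧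
      (∀ s' ∈ F, s' ≠ s → i ∉ T s') ∧ (∀ s' ∈ F, s' ≠ s → j ∉ T s') := by
  classical
  have hVne : V.Nonempty := Finset.card_pos.1 (by omega)
  have hne : Nonempty σ := by
    obtain ⟨i, hi⟩ := hVne
    obtain ⟨s, _⟩ := hdeg i hi
    exact ⟨s⟩
  choose! f hfF hfT using hdeg
  -- degrees
  let d : J → ℕ := fun i => (F.filter (fun s => i ∈ T s)).card
  let D1 : Finset J := V.filter (fun i => d i = 1)
  have hd1 : ∀ i ∈ V, 1 ≤ d i := by
    intro i hi
    exact Finset.card_pos.2 ⟨f i, Finset.mem_filter.2 ⟨hfF i hi, hfT i hi⟩⟩
  have hsum : ∑ i ∈ V, d i ≤ 3 * F.card := by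
    have h1 : ∑ i ∈ V, d i = ∑ s ∈ F, (V.filter (fun i => i ∈ T s)).card := by
      simp only [d, Finset.card_filter]
      rw [Finset.sum_comm]
    rw [h1]
    calc ∑ s ∈ F, (V.filter (fun i => i ∈ T s)).card ≤ ∑ _s ∈ F, 3 := by
          apply Finset.sum_le_sum
          intro s hs
          refine le_trans (Finset.card_le_card ?_) (hT s hs)
          intro i hi
          exact (Finset.mem_filter.1 hi).2
      _ = 3 * F.card := by rw [Finset.sum_const, smul_eq_mul, mul_comm]
  have hlow : 2 * V.card ≤ ∑ i ∈ V, d i + D1.card := by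
    have h1 : D1.card = ∑ i ∈ V, (if d i = 1 then 1 else 0) := by
      simp only [D1, Finset.card_filter]
    rw [h1, ← Finset.sum_add_distrib]
    calc 2 * V.card = ∑ _i ∈ V, 2 := by rw [Finset.sum_const, smul_eq_mul, mul_comm]
      _ ≤ ∑ i ∈ V, (d i + if d i = 1 then 1 else 0) := by
        apply Finset.sum_le_sum
        intro i hi
        have := hd1 i hi
        split_ifs with h <;> omega
  have hcard : F.card < D1.card := by omega
  obtain ⟨i, hi, j, hj, hij, hfij⟩ := Finset.exists_ne_map_eq_of_card_lt_of_maps_to hcard
    (f := f) (fun i hi => hfF i (Finset.mem_filter.1 hi).1)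
  have huniq : ∀ k ∈ D1, ∀ s' ∈ F, s' ≠ f k → k ∉ T s' := by
    intro k hk s' hs' hne hkT
    obtain ⟨hkV, hk1⟩ := Finset.mem_filter.1 hk
    obtain ⟨a, ha⟩ := Finset.card_eq_one.1 hk1
    have h1 : s' ∈ F.filter (fun s => k ∈ T s) := Finset.mem_filter.2 ⟨hs', hkT⟩
    have h2 : f k ∈ F.filter (fun s => k ∈ T s) := Finset.mem_filter.2 ⟨hfF k hkV, hfT k hkV⟩
    rw [ha, Finset.mem_singleton] at h1 h2
    exact hne (h1.trans h2.symm)
  have hiV := (Finset.mem_filter.1 hi).1
  have hjV := (Finset.mem_filter.1 hj).1
  refine ⟨f i, hfF i hiV, i, hiV, j, hjV, hij, hfT i hiV, ?_, huniq i hi, ?_⟩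
  · rw [hfij]; exact hfT j hjV
  · rw [hfij]; exact huniq j hj

/-- lifting an element of the subgroup generated by three factors -/
theorem exists_lift {K : Type*} (e : K → J) {T : Set J} (hT : ∀ j ∈ T, ∃ a, e a = j)
    {w : CoprodI U} (hw : w ∈ sup U T) :
    ∃ W : CoprodI (fun a => U (e a)),
      lift (fun a => (of (M := U) (i := e a))) W = w := by
  have hle : sup U T ≤ (lift (M := fun a => U (e a)) (fun a => (of (M := U) (i := e a)))).range := by
    refine iSup₂_le ?_
    rintro j hj _ ⟨x, rfl⟩
    obtain ⟨a, rfl⟩ := hT j hj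
    exact ⟨of (M := fun a => U (e a)) (i := a) x, lift_of _ _⟩
  exact hle hw

theorem tv_lift {K : Type*} [DecidableEq K] (e : K → J) (he : Function.Injective e)
    (W : CoprodI (fun a => U (e a))) (a : K) :
    tv U (lift (fun a => (of (M := U) (i := e a))) W) (e a) = tv (fun a => U (e a)) W a := by
  have : ((Pi.evalMonoidHom U (e a)).comp (tv U)).comp
      (lift (M := fun a => U (e a)) (fun a => (of (M := U) (i := e a)))) =
      (Pi.evalMonoidHom (fun a => U (e a)) a).comp (tv (fun a => U (e a))) := by
    apply CoprodI.ext_hom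
    intro b
    ext x
    simp only [MonoidHom.comp_apply, lift_of, tv, Pi.evalMonoidHom_apply, MonoidHom.mulSingle_apply]
    by_cases hab : b = a
    · subst hab
      rw [Pi.mulSingle_eq_same, Pi.mulSingle_eq_same]
    · rw [Pi.mulSingle_eq_of_ne (Ne.symm hab), Pi.mulSingle_eq_of_ne (fun h => hab (he h.symm))]
  exact DFunLike.congr_fun this W

theorem abelian_graph {σ : Type*} [DecidableEq σ] (w : σ → CoprodI U) (T : σ → Finset J) (n : ℕ) :
    ∀ (F : Finset σ) (V : Finset J), F.card = n → (∀ s ∈ F, (T s).card ≤ 3) →
    (∀ s ∈ F, w s ∈ sup U (T s : Set J)) →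
    2 * F.card < V.card → ∃ I, Sol U F w V I := by
  induction n with
  | zero =>
    intro F V hF _ _ hV
    have hVne : V.Nonempty := Finset.card_pos.1 (by omega)
    obtain ⟨i, hi⟩ := hVne
    refine ⟨{i}, sol_single F w V hi ?_⟩
    rw [Finset.card_eq_zero.1 hF]
    intro s hs
    simp at hs
  | succ n ih =>
    intro F V hF hT hw hV
    by_cases hdeg : ∀ i ∈ V, ∃ s ∈ F, i ∈ T s
    · obtain ⟨s, hs, i, hi, j, hj, hij, hiT, hjT, hi', hj'⟩ := exists_two F T hT V hV hdeg
      have hcardF : (F.erase s).card = n := by
        rw [Finset.card_erase_of_mem hs, hF]; rfl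
      have hcardV : ((V.erase i).erase j).card = V.card - 2 := by
        rw [Finset.card_erase_of_mem (Finset.mem_erase.2 ⟨Ne.symm hij, hj⟩),
          Finset.card_erase_of_mem hi]
        omega
      obtain ⟨I', hI'V, hI'ne, E', hE', Ψ', hinj', htriv', hsol'⟩ := ih (F.erase s)
        ((V.erase i).erase j) hcardF (fun s hs => hT s (Finset.mem_of_mem_erase hs))
        (fun s hs => hw s (Finset.mem_of_mem_erase hs)) (by omega)
      have hI'V2 : I' ⊆ V := fun x hx => Finset.mem_of_mem_erase (Finset.mem_of_mem_erase (hI'V hx))
      have hiI' : i ∉ I' := by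
        intro h
        have := hI'V h
        simp at this
      have hjI' : j ∉ I' := by
        intro h
        have := hI'V h
        simp at this
      by_cases hl : ∃ l ∈ T s, l ∈ I'
      · obtain ⟨l, hlT, hlI'⟩ := hl
        have hli : l ≠ i := fun h => hiI' (h ▸ hlI')
        have hlj : l ≠ j := fun h => hjI' (h ▸ hlI')
        have hTs : T s = {i, j, l} := by
          symm
          apply Finset.eq_of_subset_of_card_le
          · intro x hx
            simp only [Finset.mem_insert, Finset.mem_singleton] at hx
            rcases hx with rfl | rfl | rfl <;> assumption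
          · refine le_trans (hT s hs) ?_
            rw [Finset.card_insert_of_notMem, Finset.card_insert_of_notMem, Finset.card_singleton]
            · simpa using Ne.symm hlj
            · simp only [Finset.mem_insert, Finset.mem_singleton, not_or]
              exact ⟨hij, Ne.symm hli⟩
        have hother : ∀ k, (∀ s' ∈ F, s' ≠ s → k ∉ T s') → tv U (w s) k = 1 →
            ∀ s' ∈ F, tv U (w s') k = 1 := by
          intro k hk hk1 s' hs'
          by_cases hss : s' = s
          · rw [hss]; exact hk1
          · exact tv_of_notMem (hw s' hs') (by simpa using hk s' hs' hss)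
        by_cases hμi : tv U (w s) i = 1
        · exact ⟨{i}, sol_single F w V hi (hother i hi' hμi)⟩
        by_cases hμj : tv U (w s) j = 1
        · exact ⟨{j}, sol_single F w V hj (hother j hj' hμj)⟩
        by_cases hμl : tv U (w s) l = 1
        · refine ⟨I', hI'V2, hI'ne, E', hE', Ψ', hinj', htriv', ?_⟩
          intro s' hs'
          by_cases hss : s' = s
          · rw [hss, lift_single (hw s hs) Ψ' l, hμl, map_one]
            intro k hk hkl
            have hk2 : k ∈ T s := by simpa using hk
            rw [hTs] at hk2
            simp only [Finset.mem_insert, Finset.mem_singleton] at hk2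
            rcases hk2 with rfl | rfl | rfl
            · exact htriv' _ hiI'
            · exact htriv' _ hjI'
            · exact absurd rfl hkl
          · exact hsol' s' (Finset.mem_erase.2 ⟨hss, hs'⟩)
        -- the main case
        let e : Fin 3 → J := ![i, j, l]
        have he : Function.Injective e := by
          intro a b hab
          fin_cases a <;> fin_cases b <;> simp [e] at hab ⊢
          · exact hij hab
          · exact hli hab.symm
          · exact hij hab.symm
          · exact hlj hab.symm
          · exact hli hab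
          · exact hlj hab
        obtain ⟨W, hW⟩ := exists_lift e (T := (T s : Set J)) (by
          intro k hk
          have hk2 : k ∈ T s := by simpa using hk
          rw [hTs] at hk2
          simp only [Finset.mem_insert, Finset.mem_singleton] at hk2
          rcases hk2 with rfl | rfl | rfl
          · exact ⟨0, rfl⟩
          · exact ⟨1, rfl⟩
          · exact ⟨2, rfl⟩) (hw s hs)
        have htvW : ∀ a, tv (fun a => U (e a)) W a ≠ 1 := by
          intro a
          rw [← tv_lift e he W a, hW]
          fin_cases a
          · exact hμi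
          · exact hμj
          · exact hμl
        obtain ⟨E'', hE'', Ψ'', hinj'', hsol''⟩ := howie_embed W htvW
        obtain ⟨E, hE, g₁, g₂, hg₁, hg₂, hcomm⟩ := amalgam (Ψ' l) (Ψ'' 2) (hinj' l hlI') (hinj'' 2)
        let Ψ : ∀ k, U k →* E := Function.update (Function.update (fun k => g₁.comp (Ψ' k)) i
          (g₂.comp (Ψ'' 0))) j (g₂.comp (Ψ'' 1))
        have hΨj : Ψ j = g₂.comp (Ψ'' 1) := Function.update_self _ _ _
        have hΨi : Ψ i = g₂.comp (Ψ'' 0) := by
          simp only [Ψ]
          rw [Function.update_of_ne hij]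
          exact Function.update_self _ _ _
        have hΨk : ∀ k, k ≠ i → k ≠ j → Ψ k = g₁.comp (Ψ' k) := by
          intro k h1 h2
          simp only [Ψ]
          rw [Function.update_of_ne h2, Function.update_of_ne h1]
        refine ⟨insert i (insert j I'), ?_, ⟨i, Finset.mem_insert_self _ _⟩, E, hE, Ψ, ?_, ?_, ?_⟩
        · intro x hx
          simp only [Finset.mem_insert] at hx
          rcases hx with rfl | rfl | hx
          · exact hi
          · exact hj
          · exact hI'V2 hx
        · intro k hk
          by_cases h1 : k = i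
          · subst h1
            rw [hΨi]
            exact hg₂.comp (hinj'' 0)
          by_cases h2 : k = j
          · subst h2
            rw [hΨj]
            exact hg₂.comp (hinj'' 1)
          rw [hΨk k h1 h2]
          have hkI' : k ∈ I' := by
            simp only [Finset.mem_insert] at hk
            rcases hk with hk | hk | hk
            · exact absurd hk h1
            · exact absurd hk h2
            · exact hk
          exact hg₁.comp (hinj' k hkI')
        · intro k hk
          simp only [Finset.mem_insert, not_or] at hk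
          rw [hΨk k hk.1 hk.2.1, htriv' k hk.2.2]
          ext x
          simp
        · intro s' hs'
          by_cases hss : s' = s
          · rw [hss, ← hW]
            have h1 : (lift Ψ).comp (lift (M := fun a => U (e a))
                (fun a => (of (M := U) (i := e a)))) = g₂.comp (lift Ψ'') := by
              apply CoprodI.ext_hom
              intro a
              ext x
              simp only [MonoidHom.comp_apply, lift_of]
              have h2 : Ψ (e a) = g₂.comp (Ψ'' a) := by
                fin_cases a
                · exact hΨi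
                · exact hΨj
                · exact (hΨk l hli hlj).trans hcomm
              rw [h2]; rfl
            have h3 := DFunLike.congr_fun h1 W
            simp only [MonoidHom.comp_apply] at h3
            rw [h3, hsol'', map_one]
          · rw [lift_congr_on (hw s' hs') Ψ (fun k => g₁.comp (Ψ' k))]
            · have h1 : lift (fun k => g₁.comp (Ψ' k)) = g₁.comp (lift Ψ') := by
                apply CoprodI.ext_hom
                intro a
                ext x
                simp
              rw [h1, MonoidHom.comp_apply, hsol' s' (Finset.mem_erase.2 ⟨hss, hs'⟩), map_one]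
            · intro k hk
              have hk2 : k ∈ T s' := by simpa using hk
              apply hΨk
              · rintro rfl; exact hi' s' hs' hss hk2
              · rintro rfl; exact hj' s' hs' hss hk2
      · -- no vertex of the edge in I'
        simp only [not_exists, not_and] at hl
        refine ⟨I', hI'V2, hI'ne, E', hE', Ψ', hinj', htriv', ?_⟩
        intro s' hs'
        by_cases hss : s' = s
        · rw [hss, lift_congr_on (hw s hs) Ψ' (fun _ => 1)]
          · have : lift (fun _ => (1 : _ →* E')) = (1 : CoprodI U →* E') := by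
              apply CoprodI.ext_hom
              intro j
              ext b : 1
              simp
            rw [this]; rfl
          · intro k hk
            exact htriv' k (hl k (by simpa using hk))
        · exact hsol' s' (Finset.mem_erase.2 ⟨hss, hs'⟩)
    · push Not at hdeg
      obtain ⟨i, hi, hiT⟩ := hdeg
      refine ⟨{i}, sol_single F w V hi ?_⟩
      intro s hs
      exact tv_of_notMem (hw s hs) (by simpa using hiT s hs)

end

end Pool.Agent.WFP
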