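import Pool.Agent.WFP.Solid2

/-!
# Howie's theorem, quaternion form

For a list `l` of pairs `(i, t)`, `i ∈ {0, 1, 2}`, `t ∈ ℝ`, and three unit vectors `u₀, u₁, u₂`
let `F` be the product of the unit quaternions `cos (π t) + sin (π t) uᵢ`.  If the total angles
`βᵢ = Σ t` satisfy `0 ≤ βᵢ + βⱼ - βₖ < 1`, then the axes can be chosen such that `F` is real.
-/

set_option autoImplicit false

namespace Pool.Agent.WFP

open Real Quaternion

/-- the three axes in terms of the parameters `(θ, φ, s)` -/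
noncomputable def ax (i : Fin 3) (x : Fin 3 → ℝ) : ℍ[ℝ] :=
  if i = 0 then ⟨0, 0, 0, 1⟩
  else if i = 1 then ⟨0, sin (x 0), 0, cos (x 0)⟩
  else ⟨0, sin (x 2) * cos (x 1), sin (x 2) * sin (x 1), cos (x 2)⟩

/-- rotation quaternion -/
noncomputable def qt (t : ℝ) (u : ℍ[ℝ]) : ℍ[ℝ] :=
  ⟨cos (π * t), sin (π * t) * u.imI, sin (π * t) * u.imJ, sin (π * t) * u.imK⟩

/-- product of a word of rotations -/
noncomputable def Fw (l : List (Fin 3 × ℝ)) (x : Fin 3 → ℝ) : ℍ[ℝ] :=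
  (l.map (fun p => qt p.2 (ax p.1 x))).prod

theorem Fw_cons (p : Fin 3 × ℝ) (l : List (Fin 3 × ℝ)) (x : Fin 3 → ℝ) :
    Fw (p :: l) x = qt p.2 (ax p.1 x) * Fw l x := by
  simp [Fw]

theorem Fw_append (l l' : List (Fin 3 × ℝ)) (x : Fin 3 → ℝ) :
    Fw (l ++ l') x = Fw l x * Fw l' x := by
  simp [Fw]

theorem Fw_nil (x : Fin 3 → ℝ) : Fw [] x = 1 := by
  simp [Fw]

theorem ax_norm (i : Fin 3) (x : Fin 3 → ℝ) :
    (ax i x).imI ^ 2 + (ax i x).imJ ^ 2 + (ax i x).imK ^ 2 = 1 ∧ (ax i x).re = 0 := by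
  unfold ax
  split_ifs
  · simp
  · constructor
    · simp
    · rfl
  · constructor
    · show (sin (x 2) * cos (x 1)) ^ 2 + (sin (x 2) * sin (x 1)) ^ 2 + cos (x 2) ^ 2 = 1
      have h1 := sin_sq_add_cos_sq (x 1)
      have h2 := sin_sq_add_cos_sq (x 2)
      linear_combination (sin (x 2)) ^ 2 * h1 + h2
    · rfl

theorem Fw_norm (l : List (Fin 3 × ℝ)) (x : Fin 3 → ℝ) :
    (Fw l x).re ^ 2 + (Fw l x).imI ^ 2 + (Fw l x).imJ ^ 2 + (Fw l x).imK ^ 2 = 1 := by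
  induction l with
  | nil => rw [Fw_nil]; simp
  | cons p l ih =>
    rw [Fw_cons]
    simp only [re_mul, imI_mul, imJ_mul, imK_mul]
    have h1 := (ax_norm p.1 x).1
    have h2 := sin_sq_add_cos_sq (π * p.2)
    have e1 : (qt p.2 (ax p.1 x)).re = cos (π * p.2) := rfl
    have e2 : (qt p.2 (ax p.1 x)).imI = sin (π * p.2) * (ax p.1 x).imI := rfl
    have e3 : (qt p.2 (ax p.1 x)).imJ = sin (π * p.2) * (ax p.1 x).imJ := rfl
    have e4 : (qt p.2 (ax p.1 x)).imK = sin (π * p.2) * (ax p.1 x).imK := rfl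
    have hq : (qt p.2 (ax p.1 x)).re ^ 2 + (qt p.2 (ax p.1 x)).imI ^ 2 +
        (qt p.2 (ax p.1 x)).imJ ^ 2 + (qt p.2 (ax p.1 x)).imK ^ 2 = 1 := by
      rw [e1, e2, e3, e4]
      linear_combination (sin (π * p.2)) ^ 2 * h1 + h2
    generalize (qt p.2 (ax p.1 x)).re = a0 at *
    generalize (qt p.2 (ax p.1 x)).imI = a1 at *
    generalize (qt p.2 (ax p.1 x)).imJ = a2 at *
    generalize (qt p.2 (ax p.1 x)).imK = a3 at *
    linear_combination (a0 ^ 2 + a1 ^ 2 + a2 ^ 2 + a3 ^ 2) * ih + hq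

theorem ax_smooth (i : Fin 3) :
    ContDiff ℝ 2 (fun x => (ax i x).imI) ∧ ContDiff ℝ 2 (fun x => (ax i x).imJ) ∧
      ContDiff ℝ 2 (fun x => (ax i x).imK) := by
  have hx : ∀ j : Fin 3, ContDiff ℝ 2 (fun x : Fin 3 → ℝ => x j) := fun j => contDiff_apply ℝ ℝ j
  unfold ax
  split_ifs
  · exact ⟨contDiff_const, contDiff_const, contDiff_const⟩
  · exact ⟨(hx 0).sin, contDiff_const, (hx 0).cos⟩
  · exact ⟨(hx 2).sin.mul (hx 1).cos, (hx 2).sin.mul (hx 1).sin, (hx 2).cos⟩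

theorem Fw_smooth (l : List (Fin 3 × ℝ)) :
    ContDiff ℝ 2 (fun x => (Fw l x).re) ∧ ContDiff ℝ 2 (fun x => (Fw l x).imI) ∧
      ContDiff ℝ 2 (fun x => (Fw l x).imJ) ∧ ContDiff ℝ 2 (fun x => (Fw l x).imK) := by
  induction l with
  | nil =>
    simp only [Fw_nil]
    exact ⟨contDiff_const, contDiff_const, contDiff_const, contDiff_const⟩
  | cons p l ih =>
    obtain ⟨h0, h1, h2, h3⟩ := ih
    obtain ⟨a1, a2, a3⟩ := ax_smooth p.1
    have e1 : ∀ x, (qt p.2 (ax p.1 x)).re = cos (π * p.2) := fun _ => rfl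
    have e2 : ∀ x, (qt p.2 (ax p.1 x)).imI = sin (π * p.2) * (ax p.1 x).imI := fun _ => rfl
    have e3 : ∀ x, (qt p.2 (ax p.1 x)).imJ = sin (π * p.2) * (ax p.1 x).imJ := fun _ => rfl
    have e4 : ∀ x, (qt p.2 (ax p.1 x)).imK = sin (π * p.2) * (ax p.1 x).imK := fun _ => rfl
    simp only [Fw_cons, re_mul, imI_mul, imJ_mul, imK_mul, e1, e2, e3, e4]
    have b0 : ContDiff ℝ 2 (fun _ : Fin 3 → ℝ => cos (π * p.2)) := contDiff_const
    have b1 : ContDiff ℝ 2 (fun x => sin (π * p.2) * (ax p.1 x).imI) := contDiff_const.mul a1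
    have b2 : ContDiff ℝ 2 (fun x => sin (π * p.2) * (ax p.1 x).imJ) := contDiff_const.mul a2
    have b3 : ContDiff ℝ 2 (fun x => sin (π * p.2) * (ax p.1 x).imK) := contDiff_const.mul a3
    refine ⟨?_, ?_, ?_, ?_⟩
    · exact (((b0.mul h0).sub (b1.mul h1)).sub (b2.mul h2)).sub (b3.mul h3)
    · exact (((b0.mul h1).add (b1.mul h0)).add (b2.mul h3)).sub (b3.mul h2)
    · exact (((b0.mul h2).sub (b1.mul h3)).add (b2.mul h0)).add (b3.mul h1)
    · exact (((b0.mul h3).add (b1.mul h2)).sub (b2.mul h1)).add (b3.mul h0)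

/-- total angle of the factor `i` -/
noncomputable def tot (i : Fin 3) (l : List (Fin 3 × ℝ)) : ℝ :=
  (l.map (fun p => if p.1 = i then p.2 else 0)).sum

theorem tot_nil (i : Fin 3) : tot i [] = 0 := by simp [tot]

theorem tot_cons (i : Fin 3) (p : Fin 3 × ℝ) (l : List (Fin 3 × ℝ)) :
    tot i (p :: l) = (if p.1 = i then p.2 else 0) + tot i l := by simp [tot]

theorem tot_append (i : Fin 3) (l l' : List (Fin 3 × ℝ)) :
    tot i (l ++ l') = tot i l + tot i l' := by simp [tot]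

/-- rotation quaternion about the third axis -/
noncomputable def rz (t : ℝ) : ℍ[ℝ] := ⟨cos t, 0, 0, sin t⟩

theorem rz_mul (s t : ℝ) : rz s * rz t = rz (s + t) := by
  ext <;> (simp [rz, cos_add, sin_add, re_mul, imI_mul, imJ_mul, imK_mul]; try ring)

/-- collinear axes -/
theorem Fw_collinear (l : List (Fin 3 × ℝ)) (x : Fin 3 → ℝ) (ε : Fin 3 → ℝ)
    (hε : ∀ i, ε i = 1 ∨ ε i = -1)
    (hax : ∀ i, ax i x = ⟨0, 0, 0, ε i⟩) :
    Fw l x = rz (π * (ε 0 * tot 0 l + ε 1 * tot 1 l + ε 2 * tot 2 l)) := by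
  induction l with
  | nil =>
    rw [Fw_nil]
    simp only [tot_nil]
    ext <;> simp [rz]
  | cons p l ih =>
    rw [Fw_cons, ih, hax]
    have h1 : qt p.2 ⟨0, 0, 0, ε p.1⟩ = rz (π * (ε p.1 * p.2)) := by
      rcases hε p.1 with h | h
      · rw [h]; ext <;> simp [qt, rz]
      · rw [h]; ext <;> simp [qt, rz]
    rw [h1, rz_mul]
    congr 1
    simp only [tot_cons]
    obtain ⟨i, t⟩ := p
    fin_cases i <;> simp <;> ring

end Pool.Agent.WFP
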