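import Pool.Agent.WFP.Howie

/-!
# Howie's theorem, quaternion form: existence of axes
-/

set_option autoImplicit false

namespace Pool.Agent.WFP

open Real Quaternion

/-- `q` is `q'` rotated by the angle with cosine `c` and sine `s` about the third axis. -/
def Rot (c s : ℝ) (q q' : ℍ[ℝ]) : Prop :=
  q.re = q'.re ∧ q.imI = c * q'.imI - s * q'.imJ ∧ q.imJ = s * q'.imI + c * q'.imJ ∧ q.imK = q'.imK

theorem Rot.mul {c s : ℝ} (h : c ^ 2 + s ^ 2 = 1) {p p' q q' : ℍ[ℝ]} (hp : Rot c s p p')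
    (hq : Rot c s q q') : Rot c s (p * q) (p' * q') := by
  obtain ⟨p0, p1, p2, p3⟩ := hp
  obtain ⟨q0, q1, q2, q3⟩ := hq
  unfold Rot
  simp only [re_mul, imI_mul, imJ_mul, imK_mul]
  rw [p0, p1, p2, p3, q0, q1, q2, q3]
  refine ⟨?_, ?_, ?_, ?_⟩
  · linear_combination (- p'.imI * q'.imI - p'.imJ * q'.imJ) * h
  · ring
  · ring
  · linear_combination (p'.imI * q'.imJ - p'.imJ * q'.imI) * h

theorem ax_rot (i : Fin 3) (θ φ s : ℝ) (hθ : sin θ = 0) :
    Rot (cos φ) (sin φ) (ax i ![θ, φ, s]) (ax i ![θ, 0, s]) := by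
  unfold ax
  split_ifs
  · simp [Rot]
  · refine ⟨rfl, ?_, ?_, rfl⟩
    · show sin θ = cos φ * sin θ - sin φ * 0
      rw [hθ]; ring
    · show (0 : ℝ) = sin φ * sin θ + cos φ * 0
      rw [hθ]; ring
  · refine ⟨rfl, ?_, ?_, rfl⟩
    · show sin s * cos φ = cos φ * (sin s * cos 0) - sin φ * (sin s * sin 0)
      rw [cos_zero, sin_zero]; ring
    · show sin s * sin φ = sin φ * (sin s * cos 0) + cos φ * (sin s * sin 0)
      rw [cos_zero, sin_zero]; ring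

theorem qt_rot {c s : ℝ} (t : ℝ) {u u' : ℍ[ℝ]} (h : Rot c s u u') : Rot c s (qt t u) (qt t u') := by
  obtain ⟨_, h1, h2, h3⟩ := h
  refine ⟨rfl, ?_, ?_, ?_⟩
  · show sin (π * t) * u.imI = c * (sin (π * t) * u'.imI) - s * (sin (π * t) * u'.imJ)
    rw [h1]; ring
  · show sin (π * t) * u.imJ = s * (sin (π * t) * u'.imI) + c * (sin (π * t) * u'.imJ)
    rw [h2]; ring
  · show sin (π * t) * u.imK = sin (π * t) * u'.imK
    rw [h3]

theorem Fw_rot (l : List (Fin 3 × ℝ)) (θ φ s : ℝ) (hθ : sin θ = 0) :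
    Rot (cos φ) (sin φ) (Fw l ![θ, φ, s]) (Fw l ![θ, 0, s]) := by
  induction l with
  | nil => rw [Fw_nil, Fw_nil]; simp [Rot]
  | cons p l ih =>
    rw [Fw_cons, Fw_cons]
    exact Rot.mul (by rw [add_comm]; exact sin_sq_add_cos_sq φ)
      (qt_rot _ (ax_rot _ _ _ _ hθ)) ih

theorem ax_per (i : Fin 3) (x : Fin 3 → ℝ) : ax i (x + Pi.single 1 (2 * π)) = ax i x := by
  have h0 : (x + Pi.single 1 (2 * π) : Fin 3 → ℝ) 0 = x 0 := by
    rw [Pi.add_apply, Pi.single_eq_of_ne (by decide), add_zero]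
  have h1 : (x + Pi.single 1 (2 * π) : Fin 3 → ℝ) 1 = x 1 + 2 * π := by
    rw [Pi.add_apply, Pi.single_eq_same]
  have h2 : (x + Pi.single 1 (2 * π) : Fin 3 → ℝ) 2 = x 2 := by
    rw [Pi.add_apply, Pi.single_eq_of_ne (by decide), add_zero]
  unfold ax
  rw [h0, h1, h2, cos_add_two_pi, sin_add_two_pi]

theorem Fw_congr (l : List (Fin 3 × ℝ)) {x y : Fin 3 → ℝ} (h : ∀ i, ax i x = ax i y) :
    Fw l x = Fw l y := by
  unfold Fw
  congr 1
  apply List.map_congr_left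
  intro p _
  rw [h]

/-- if `g` is constant along lines in direction `1` through `x` then the derivative vanishes -/
theorem pd_zero_of_const {g : (Fin 3 → ℝ) → ℝ} (hg : Differentiable ℝ g) (x : Fin 3 → ℝ)
    (h : ∀ t : ℝ, g (x + Pi.single 1 t) = g x) : pd 1 g x = 0 := by
  have h1 : HasDerivAt (fun t : ℝ => x + Pi.single 1 t) (Pi.single 1 1 : Fin 3 → ℝ) 0 := by
    rw [hasDerivAt_pi]
    intro i
    by_cases hi : i = 1
    · subst hi
      simp only [Pi.add_apply, Pi.single_eq_same]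
      simpa using (hasDerivAt_id (0 : ℝ)).const_add (x 1)
    · have : (fun t : ℝ => (x + Pi.single 1 t : Fin 3 → ℝ) i) = fun _ => x i := by
        funext t; rw [Pi.add_apply, Pi.single_eq_of_ne hi, add_zero]
      rw [this, Pi.single_eq_of_ne hi]
      exact hasDerivAt_const _ _
  have h2 : HasFDerivAt g (fderiv ℝ g x) (x + Pi.single 1 (0 : ℝ)) := by
    rw [Pi.single_zero, add_zero]; exact (hg x).hasFDerivAt
  have h3 := h2.comp_hasDerivAt (0 : ℝ) h1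
  have h4 : (g ∘ fun t : ℝ => x + Pi.single 1 t) = fun _ => g x := funext h
  rw [h4] at h3
  exact h3.unique (hasDerivAt_const _ _)

theorem ax_pole (i : Fin 3) (x : Fin 3 → ℝ) (t : ℝ) (h : sin (x 2) = 0) :
    ax i (x + Pi.single 1 t) = ax i x := by
  have h0 : (x + Pi.single 1 t : Fin 3 → ℝ) 0 = x 0 := by
    rw [Pi.add_apply, Pi.single_eq_of_ne (by decide), add_zero]
  have h2 : (x + Pi.single 1 t : Fin 3 → ℝ) 2 = x 2 := by
    rw [Pi.add_apply, Pi.single_eq_of_ne (by decide), add_zero]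
  unfold ax
  rw [h0, h2, h]
  simp

theorem ax_col (i : Fin 3) (x : Fin 3 → ℝ) (h0 : sin (x 0) = 0) (h2 : sin (x 2) = 0) :
    ax i x = ⟨0, 0, 0, ![1, cos (x 0), cos (x 2)] i⟩ := by
  unfold ax
  rw [h0, h2]
  fin_cases i <;> simp

theorem howie_quat (l : List (Fin 3 × ℝ))
    (h01 : 0 ≤ tot 0 l + tot 1 l - tot 2 l) (h01' : tot 0 l + tot 1 l - tot 2 l < 1)
    (h02 : 0 ≤ tot 0 l - tot 1 l + tot 2 l) (h02' : tot 0 l - tot 1 l + tot 2 l < 1)
    (h12 : 0 ≤ - tot 0 l + tot 1 l + tot 2 l) (h12' : - tot 0 l + tot 1 l + tot 2 l < 1) :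
    ∃ x, (Fw l x).imI = 0 ∧ (Fw l x).imJ = 0 ∧ (Fw l x).imK = 0 := by
  by_contra hcon
  simp only [not_exists, not_and] at hcon
  obtain ⟨_, s1, s2, s3⟩ := Fw_smooth l
  let R : (Fin 3 → ℝ) → ℝ := fun x =>
    (Fw l x).imI ^ 2 + (Fw l x).imJ ^ 2 + (Fw l x).imK ^ 2
  have hRpos : ∀ x, 0 < R x := by
    intro x
    by_contra hle
    have h0 : R x ≤ 0 := not_lt.1 hle
    have e : R x = (Fw l x).imI ^ 2 + (Fw l x).imJ ^ 2 + (Fw l x).imK ^ 2 := rfl
    have hI : (Fw l x).imI = 0 := by nlinarith [sq_nonneg (Fw l x).imI, sq_nonneg (Fw l x).imJ, sq_nonneg (Fw l x).imK]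
    have hJ : (Fw l x).imJ = 0 := by nlinarith [sq_nonneg (Fw l x).imI, sq_nonneg (Fw l x).imJ, sq_nonneg (Fw l x).imK]
    have hK : (Fw l x).imK = 0 := by nlinarith [sq_nonneg (Fw l x).imI, sq_nonneg (Fw l x).imJ, sq_nonneg (Fw l x).imK]
    exact hcon x hI hJ hK
  have hRs : ContDiff ℝ 2 R := ((s1.pow 2).add (s2.pow 2)).add (s3.pow 2)
  have hsq : ContDiff ℝ 2 (fun x => √(R x)) := hRs.sqrt (fun x => (hRpos x).ne')
  have hsqpos : ∀ x, 0 < √(R x) := fun x => sqrt_pos.2 (hRpos x)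
  let n : Fin 3 → (Fin 3 → ℝ) → ℝ :=
    ![fun x => (Fw l x).imI / √(R x), fun x => (Fw l x).imJ / √(R x), fun x => (Fw l x).imK / √(R x)]
  have n0 : ∀ x, n 0 x = (Fw l x).imI / √(R x) := fun _ => rfl
  have n1 : ∀ x, n 1 x = (Fw l x).imJ / √(R x) := fun _ => rfl
  have n2 : ∀ x, n 2 x = (Fw l x).imK / √(R x) := fun _ => rfl
  have hsm : ∀ a, ContDiff ℝ 2 (n a) := by
    intro a
    fin_cases a
    · exact s1.div hsq (fun x => (hsqpos x).ne')
    · exact s2.div hsq (fun x => (hsqpos x).ne')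
    · exact s3.div hsq (fun x => (hsqpos x).ne')
  have hunit : ∀ x, n 0 x ^ 2 + n 1 x ^ 2 + n 2 x ^ 2 = 1 := by
    intro x
    rw [n0, n1, n2, div_pow, div_pow, div_pow, sq_sqrt (hRpos x).le, ← add_div, ← add_div]
    exact div_self (hRpos x).ne'
  have hFn : ∀ x y, Fw l x = Fw l y → ∀ a, n a x = n a y := by
    intro x y h a
    have hR : R x = R y := by show _ ^ 2 + _ ^ 2 + _ ^ 2 = _; rw [h]
    fin_cases a
    · show (Fw l x).imI / √(R x) = (Fw l y).imI / √(R y); rw [h, hR]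
    · show (Fw l x).imJ / √(R x) = (Fw l y).imJ / √(R y); rw [h, hR]
    · show (Fw l x).imK / √(R x) = (Fw l y).imK / √(R y); rw [h, hR]
  have hper : ∀ a x, n a (x + Pi.single 1 (2 * π)) = n a x := fun a x =>
    hFn _ _ (Fw_congr l (fun i => ax_per i x)) a
  have hpole : ∀ a x, sin (x 2) = 0 → pd 1 (n a) x = 0 := by
    intro a x hx
    apply pd_zero_of_const ((hsm a).differentiable (by norm_num))
    intro t
    exact hFn _ _ (Fw_congr l (fun i => ax_pole i x t hx)) a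
  have hs0 : ∀ a x, x 2 = 0 → pd 1 (n a) x = 0 := fun a x hx => hpole a x (by rw [hx, sin_zero])
  have hspi : ∀ a x, x 2 = π → pd 1 (n a) x = 0 := fun a x hx => hpole a x (by rw [hx, sin_pi])
  have hrot : ∀ θ, sin θ = 0 → ∀ φ s : ℝ,
      n 0 ![θ, φ, s] = cos φ * n 0 ![θ, 0, s] - sin φ * n 1 ![θ, 0, s] ∧
      n 1 ![θ, φ, s] = sin φ * n 0 ![θ, 0, s] + cos φ * n 1 ![θ, 0, s] ∧
      n 2 ![θ, φ, s] = n 2 ![θ, 0, s] := by
    intro θ hθ φ s
    obtain ⟨r0, r1, r2, r3⟩ := Fw_rot l θ φ s hθ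
    have hR : R ![θ, φ, s] = R ![θ, 0, s] := by
      show _ ^ 2 + _ ^ 2 + _ ^ 2 = _ ^ 2 + _ ^ 2 + _ ^ 2
      rw [r1, r2, r3]
      linear_combination ((Fw l ![θ, 0, s]).imI ^ 2 + (Fw l ![θ, 0, s]).imJ ^ 2) *
        (sin_sq_add_cos_sq φ)
    rw [n0, n0, n1, n1, n2, n2, hR, r1, r2, r3]
    refine ⟨?_, ?_, rfl⟩ <;> ring
  have key := solid_inv hsm hunit hper hs0 hspi
  rw [end_value hsm hunit π (hrot π sin_pi), end_value hsm hunit 0 (hrot 0 sin_zero)] at key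
  have key2 : n 2 ![π, 0, π] - n 2 ![π, 0, 0] = n 2 ![0, 0, π] - n 2 ![0, 0, 0] := by
    have : (2 * π) ≠ 0 := by positivity
    exact mul_left_cancel₀ this key
  -- the value of `n 2` at collinear points
  have hval : ∀ θ s : ℝ, (θ = 0 ∨ θ = π) → (s = 0 ∨ s = π) →
      (Fw l ![θ, 0, s]).imI = 0 ∧ (Fw l ![θ, 0, s]).imJ = 0 ∧
      (Fw l ![θ, 0, s]).imK = sin (π * (tot 0 l + cos θ * tot 1 l + cos s * tot 2 l)) := by
    intro θ s hθ hs
    have hθ0 : sin θ = 0 := by rcases hθ with rfl | rfl <;> simp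
    have hs0 : sin s = 0 := by rcases hs with rfl | rfl <;> simp
    have hc := Fw_collinear l ![θ, 0, s] ![1, cos θ, cos s] (by
      intro i
      fin_cases i
      · exact Or.inl rfl
      · rcases hθ with rfl | rfl
        · exact Or.inl cos_zero
        · exact Or.inr cos_pi
      · rcases hs with rfl | rfl
        · exact Or.inl cos_zero
        · exact Or.inr cos_pi) (fun i => ax_col i ![θ, 0, s] hθ0 hs0)
    rw [hc]
    refine ⟨rfl, rfl, ?_⟩
    show sin (π * (1 * tot 0 l + cos θ * tot 1 l + cos s * tot 2 l)) = _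
    rw [one_mul]
  have hn2 : ∀ θ s : ℝ, (θ = 0 ∨ θ = π) → (s = 0 ∨ s = π) →
      n 2 ![θ, 0, s] = sin (π * (tot 0 l + cos θ * tot 1 l + cos s * tot 2 l)) /
        |sin (π * (tot 0 l + cos θ * tot 1 l + cos s * tot 2 l))| ∧
      sin (π * (tot 0 l + cos θ * tot 1 l + cos s * tot 2 l)) ≠ 0 := by
    intro θ s hθ hs
    obtain ⟨v1, v2, v3⟩ := hval θ s hθ hs
    constructor
    · rw [n2]
      have hR : R ![θ, 0, s] = (sin (π * (tot 0 l + cos θ * tot 1 l + cos s * tot 2 l))) ^ 2 := by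
        show _ ^ 2 + _ ^ 2 + _ ^ 2 = _
        rw [v1, v2, v3]; ring
      rw [hR, sqrt_sq_eq_abs, v3]
    · intro h0
      apply hcon ![θ, 0, s] v1 v2
      rw [v3, h0]
  have hpos : ∀ b : ℝ, 0 ≤ b → b < 1 → sin (π * b) ≠ 0 → sin (π * b) / |sin (π * b)| = 1 := by
    intro b hb0 hb1 hne
    have hb : 0 ≤ sin (π * b) := by
      apply sin_nonneg_of_nonneg_of_le_pi
      · positivity
      · nlinarith [pi_pos]
    rw [abs_of_nonneg hb]
    exact div_self hne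
  have va : n 2 ![0, 0, π] = 1 := by
    obtain ⟨w1, w2⟩ := hn2 0 π (Or.inl rfl) (Or.inr rfl)
    rw [cos_zero, cos_pi] at w1 w2
    have e : tot 0 l + 1 * tot 1 l + -1 * tot 2 l = tot 0 l + tot 1 l - tot 2 l := by ring
    rw [e] at w1 w2
    rw [w1]; exact hpos _ h01 h01' w2
  have vb : n 2 ![π, 0, 0] = 1 := by
    obtain ⟨w1, w2⟩ := hn2 π 0 (Or.inr rfl) (Or.inl rfl)
    rw [cos_zero, cos_pi] at w1 w2
    have e : tot 0 l + -1 * tot 1 l + 1 * tot 2 l = tot 0 l - tot 1 l + tot 2 l := by ring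
    rw [e] at w1 w2
    rw [w1]; exact hpos _ h02 h02' w2
  have vc : n 2 ![π, 0, π] = -1 := by
    obtain ⟨w1, w2⟩ := hn2 π π (Or.inr rfl) (Or.inr rfl)
    rw [cos_pi] at w1 w2
    have e : π * (tot 0 l + -1 * tot 1 l + -1 * tot 2 l) =
        -(π * (- tot 0 l + tot 1 l + tot 2 l)) := by ring
    rw [e, sin_neg] at w1 w2
    rw [w1, abs_neg, neg_div, hpos _ h12 h12' (fun h => w2 (by rw [h, neg_zero]))]
  rw [va, vb, vc] at key2
  have hlast := hunit ![0, 0, 0]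
  have : n 2 ![0, 0, 0] = 3 := by linarith
  rw [this] at hlast
  nlinarith [sq_nonneg (n 0 ![0, 0, 0]), sq_nonneg (n 1 ![0, 0, 0])]

end Pool.Agent.WFP
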