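import Pool.Agent.WFP.Rotation

/-!
# Howie's theorem for three abelian groups

`U 0, U 1, U 2` abelian groups, `W` an element of their free product whose three abelianised
components are nontrivial.  Then the three groups embed in a group in which `W` becomes trivial.
-/

set_option autoImplicit false
set_option linter.unusedSectionVars false

namespace Pool.Agent.WFP

open Monoid Monoid.CoprodI Quaternion

universe u

section

variable {U : Fin 3 → Type u} [∀ j, CommGroup (U j)]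

/-- rotation representation with axes `ax j x` and characters `c j` -/
noncomputable def rep3 (c : ∀ j, Additive (U j) →+ AddCircle (1 : ℚ)) (x : Fin 3 → ℝ)
    (j : Fin 3) : U j →* MulAut (ℍ[ℝ])ˣ :=
  MonoidHom.toAdditive.symm ((rotC (ax j x) (ax_pure j x)).comp (c j))

theorem rep3_apply (c : ∀ j, Additive (U j) →+ AddCircle (1 : ℚ)) (x : Fin 3 → ℝ)
    (j : Fin 3) (a : U j) :
    rep3 c x j a = (rotC (ax j x) (ax_pure j x) (c j (Additive.ofMul a))).toMul := rfl

theorem Uw_append3 (l l' : List (Fin 3 × ℚ)) (x : Fin 3 → ℝ) :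
    Uw (l ++ l') x = Uw l x * Uw l' x := by simp [Uw]

theorem totQ_append3 (i : Fin 3) (l l' : List (Fin 3 × ℚ)) :
    totQ i (l ++ l') = totQ i l + totQ i l' := by simp [totQ]

theorem Uw_int3 (j : Fin 3) (m : ℤ) (x : Fin 3 → ℝ) : MulAut.conj (Uw [(j, (m : ℚ))] x) = 1 := by
  have h1 : Uw [(j, (m : ℚ))] x = qU (ax j x) (ax_pure j x) (((m : ℚ) : ℝ)) := by simp [Uw]
  have h2 : (((m : ℚ) : ℝ)) = (m : ℝ) := by norm_cast
  rw [h1, h2]
  exact rotQ_int _ _ m

end

/-- total vector of an element of a free product of abelian groups -/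
noncomputable def tv {J : Type*} [DecidableEq J] (U : J → Type*) [∀ j, CommGroup (U j)] :
    CoprodI U →* (∀ j, U j) :=
  lift (fun j => MonoidHom.mulSingle U j)

section

variable {U : Fin 3 → Type u} [∀ j, CommGroup (U j)]

theorem word_exists3 (c : ∀ j, Additive (U j) →+ AddCircle (1 : ℚ))
    (w : CoprodI U) : ∃ l : List (Fin 3 × ℚ),
      (∀ x, lift (fun j => rep3 c x j) w = MulAut.conj (Uw l x)) ∧
      ∀ i, ((totQ i l : ℚ) : AddCircle (1 : ℚ)) = c i (Additive.ofMul (tv U w i)) := by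
  induction w using CoprodI.induction_on with
  | one =>
    refine ⟨[], ?_, ?_⟩
    · intro x
      rw [map_one]
      have : Uw [] x = 1 := by simp [Uw]
      rw [this, map_one]
    · intro i
      rw [map_one]
      have : totQ i [] = 0 := by simp [totQ]
      rw [this]
      show ((0 : ℚ) : AddCircle (1 : ℚ)) = c i 0
      rw [map_zero]; rfl
  | of j a =>
    obtain ⟨t, ht⟩ := QuotientAddGroup.mk_surjective (c j (Additive.ofMul a))
    refine ⟨[(j, t)], ?_, ?_⟩
    · intro x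
      have h1 : Uw [(j, t)] x = qU (ax j x) (ax_pure j x) (t : ℝ) := by simp [Uw]
      rw [lift_of, rep3_apply, h1, ← ht]
      rfl
    · intro i
      have h1 : tv U (of a) = MonoidHom.mulSingle U j a := by simp [tv]
      have h2 : totQ i [(j, t)] = if j = i then t else 0 := by simp [totQ]
      rw [h1, h2]
      by_cases hij : j = i
      · subst hij
        rw [if_pos rfl, MonoidHom.mulSingle_apply, Pi.mulSingle_eq_same]
        exact ht
      · rw [if_neg hij, MonoidHom.mulSingle_apply, Pi.mulSingle_eq_of_ne (Ne.symm hij)]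
        show ((0 : ℚ) : AddCircle (1 : ℚ)) = c i 0
        rw [map_zero]; rfl
  | mul v w hv hw =>
    obtain ⟨l, hl1, hl2⟩ := hv
    obtain ⟨l', hl1', hl2'⟩ := hw
    refine ⟨l ++ l', ?_, ?_⟩
    · intro x
      rw [map_mul, hl1, hl1', Uw_append3, map_mul]
    · intro i
      rw [totQ_append3, map_mul]
      show ((totQ i l + totQ i l' : ℚ) : AddCircle (1 : ℚ)) =
        c i (Additive.ofMul (tv U v i) + Additive.ofMul (tv U w i))
      rw [map_add, ← hl2, ← hl2']; rfl

theorem solution_exists3 (w : CoprodI U) (hμ : ∀ i, tv U w i ≠ 1) (j : Fin 3)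
    (a : U j) (ha : a ≠ 1) : ∃ Φ : ∀ i, U i →* MulAut (ℍ[ℝ])ˣ,
      lift Φ w = 1 ∧ Φ j a ≠ 1 := by
  classical
  have hex : ∀ i, ∃ β : ℚ, ∃ ci : Additive (U i) →+ AddCircle (1 : ℚ),
      1 / 6 ≤ β ∧ β ≤ 1 / 2 ∧ (i ≠ j → 1 / 3 ≤ β) ∧
      ci (Additive.ofMul (tv U w i)) = (β : AddCircle (1 : ℚ)) ∧
      (∀ h : j = i, ci (Additive.ofMul (h ▸ a)) ≠ 0) := by
    intro i
    have hμi : (Additive.ofMul (tv U w i) : Additive (U i)) ≠ 0 := hμ i
    by_cases hij : j = i
    · subst hij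
      have ha' : (Additive.ofMul a : Additive (U j)) ≠ 0 := ha
      obtain ⟨β, h1, h2, c, h3, h4⟩ := char_sep hμi ha'
      exact ⟨β, c, h1, h2, fun h => absurd rfl h, h3, fun _ => h4⟩
    · obtain ⟨β, h1, h2, c, h3⟩ := char_large hμi
      exact ⟨β, c, by linarith, h2, fun _ => h1, h3, fun h => absurd h hij⟩
  choose β c hβ1 hβ2 hβ3 hc hca using hex
  obtain ⟨l, hl1, hl2⟩ := word_exists3 c w
  have hm : ∀ i, ∃ m : ℤ, totQ i l = β i + m := by
    intro i
    have h1 := hl2 i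
    rw [hc] at h1
    have h2 : ((totQ i l - β i : ℚ) : AddCircle (1 : ℚ)) = 0 := by
      rw [AddCircle.coe_sub, h1, sub_self]
    obtain ⟨m, hm⟩ := (AddCircle.coe_eq_zero_iff (1 : ℚ)).1 h2
    refine ⟨m, ?_⟩
    have h3 : ((m • (1 : ℚ) : ℚ)) = m := by simp
    rw [h3] at hm
    linarith
  choose m hm using hm
  let l' : List (Fin 3 × ℚ) := l ++ ([(0, ((-m 0 : ℤ) : ℚ))] ++ ([(1, ((-m 1 : ℤ) : ℚ))] ++
    [(2, ((-m 2 : ℤ) : ℚ))]))
  have hconj : ∀ x, MulAut.conj (Uw l' x) = MulAut.conj (Uw l x) := by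
    intro x
    simp only [l']
    rw [Uw_append3, Uw_append3, Uw_append3, map_mul, map_mul, map_mul, Uw_int3, Uw_int3, Uw_int3]
    simp
  have htot : ∀ i, totQ i l' = β i := by
    intro i
    simp only [l']
    rw [totQ_append3, totQ_append3, totQ_append3, hm]
    fin_cases i <;> simp [totQ]
  have htotR : ∀ i, tot i (castW l') = (β i : ℝ) := by
    intro i
    rw [tot_castW, htot]
  have hb : (0 ≤ β 0 + β 1 - β 2 ∧ β 0 + β 1 - β 2 < 1) ∧ (0 ≤ β 0 - β 1 + β 2 ∧ β 0 - β 1 + β 2 < 1)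
      ∧ (0 ≤ - β 0 + β 1 + β 2 ∧ - β 0 + β 1 + β 2 < 1) := by
    have a0 := hβ1 0
    have a1 := hβ1 1
    have a2 := hβ1 2
    have b0 := hβ2 0
    have b1 := hβ2 1
    have b2 := hβ2 2
    have c0 := hβ3 0
    have c1 := hβ3 1
    have c2 := hβ3 2
    fin_cases j
    · have d1 := c1 (by decide)
      have d2 := c2 (by decide)
      refine ⟨⟨?_, ?_⟩, ⟨?_, ?_⟩, ⟨?_, ?_⟩⟩ <;> linarith
    · have d1 := c0 (by decide)
      have d2 := c2 (by decide)
      refine ⟨⟨?_, ?_⟩, ⟨?_, ?_⟩, ⟨?_, ?_⟩⟩ <;> linarith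
    · have d1 := c0 (by decide)
      have d2 := c1 (by decide)
      refine ⟨⟨?_, ?_⟩, ⟨?_, ?_⟩, ⟨?_, ?_⟩⟩ <;> linarith
  obtain ⟨⟨e1, e2⟩, ⟨e3, e4⟩, ⟨e5, e6⟩⟩ := hb
  obtain ⟨x, r1, r2, r3⟩ := howie_quat (castW l')
    (by rw [htotR, htotR, htotR]; exact_mod_cast e1)
    (by rw [htotR, htotR, htotR]; exact_mod_cast e2)
    (by rw [htotR, htotR, htotR]; exact_mod_cast e3)
    (by rw [htotR, htotR, htotR]; exact_mod_cast e4)
    (by rw [htotR, htotR, htotR]; exact_mod_cast e5)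
    (by rw [htotR, htotR, htotR]; exact_mod_cast e6)
  rw [← Uw_val] at r1 r2 r3
  refine ⟨rep3 c x, ?_, ?_⟩
  · rw [hl1, ← hconj]
    exact conj_eq_one r1 r2 r3
  · rw [rep3_apply]
    intro h
    exact rotC_ne (ax_pure j x) (hca j rfl) h

/-- **Howie's theorem**, embedding form. -/
theorem howie_embed (w : CoprodI U) (hμ : ∀ i, tv U w i ≠ 1) :
    ∃ (E : Type u) (_ : Group E) (Ψ : ∀ j, U j →* E), (∀ j, Function.Injective (Ψ j)) ∧
      lift Ψ w = 1 := by
  classical
  let Λ := {Φ : ∀ i, U i →* MulAut (ℍ[ℝ])ˣ // lift Φ w = 1}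
  let Ψ : ∀ j, U j →* (Λ → MulAut (ℍ[ℝ])ˣ) := fun j =>
    { toFun := fun a Φ => Φ.1 j a
      map_one' := by funext Φ; exact map_one _
      map_mul' := by intro a b; funext Φ; exact map_mul _ _ _ }
  refine ⟨Λ → MulAut (ℍ[ℝ])ˣ, inferInstance, Ψ, ?_, ?_⟩
  · intro j
    rw [injective_iff_map_eq_one]
    intro a ha
    by_contra hne
    obtain ⟨Φ, h1, h2⟩ := solution_exists3 w hμ j a hne
    exact h2 (congrFun ha ⟨Φ, h1⟩)
  · funext Φ
    have : (Pi.evalMonoidHom (fun _ : Λ => MulAut (ℍ[ℝ])ˣ) Φ).comp (lift Ψ) = lift Φ.1 := by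
      apply CoprodI.ext_hom
      intro j
      ext b : 1
      simp [Ψ]
    have h2 := DFunLike.congr_fun this w
    rw [Φ.2] at h2
    exact h2

end

/-- amalgamation of two groups over a common subgroup -/
theorem amalgam {H E₁ E₂ : Type u} [Group H] [Group E₁] [Group E₂] (f₁ : H →* E₁) (f₂ : H →* E₂)
    (h₁ : Function.Injective f₁) (h₂ : Function.Injective f₂) :
    ∃ (E : Type u) (_ : Group E) (g₁ : E₁ →* E) (g₂ : E₂ →* E), Function.Injective g₁ ∧
      Function.Injective g₂ ∧ g₁.comp f₁ = g₂.comp f₂ := by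
  classical
  let G : Bool → Type u := fun b => if b then E₁ else E₂
  letI : ∀ b, Group (G b) := fun b => by
    cases b
    · exact (inferInstance : Group E₂)
    · exact (inferInstance : Group E₁)
  let φ : ∀ b, H →* G b := fun b => by
    cases b
    · exact f₂
    · exact f₁
  have hφ : ∀ b, Function.Injective (φ b) := by
    intro b
    cases b
    · exact h₂
    · exact h₁
  refine ⟨Monoid.PushoutI φ, inferInstance, Monoid.PushoutI.of (φ := φ) true,
    Monoid.PushoutI.of (φ := φ) false, Monoid.PushoutI.of_injective hφ true,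
    Monoid.PushoutI.of_injective hφ false, ?_⟩
  have e1 := Monoid.PushoutI.of_comp_eq_base (φ := φ) true
  have e2 := Monoid.PushoutI.of_comp_eq_base (φ := φ) false
  exact e1.trans e2.symm

end Pool.Agent.WFP
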