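import Mathlib

/-!
# Invariance of the solid angle

For a `C²` family `n(θ, φ, s)` of unit vectors in `ℝ³`, `2π`-periodic in `φ`, independent of `φ` for
`s = 0` and for `s = π`, the solid angle swept by `(φ, s) ∈ [0, 2π] × [0, π]` does not depend on
`θ`.  If `n` is equivariant with respect to the rotations around the third axis for `θ = 0` and for
`θ = π`, then the solid angle there is `2π (n₂(θ, 0, π) - n₂(θ, 0, 0))`.
-/

set_option autoImplicit false

namespace Pool.Agent.WFP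

open MeasureTheory Set

/-- partial derivative -/
noncomputable def pd (i : Fin 3) (g : (Fin 3 → ℝ) → ℝ) (x : Fin 3 → ℝ) : ℝ :=
  fderiv ℝ g x (Pi.single i 1)

theorem pd_mul (i : Fin 3) {f g : (Fin 3 → ℝ) → ℝ} (hf : Differentiable ℝ f)
    (hg : Differentiable ℝ g) (x : Fin 3 → ℝ) :
    pd i (fun x => f x * g x) x = pd i f x * g x + f x * pd i g x := by
  unfold pd
  rw [fderiv_fun_mul (hf x) (hg x)]
  simp only [add_apply, smul_apply, smul_eq_mul]
  ring

theorem pd_add (i : Fin 3) {f g : (Fin 3 → ℝ) → ℝ} (hf : Differentiable ℝ f)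
    (hg : Differentiable ℝ g) (x : Fin 3 → ℝ) :
    pd i (fun x => f x + g x) x = pd i f x + pd i g x := by
  unfold pd
  rw [fderiv_fun_add (hf x) (hg x)]
  simp only [add_apply]

theorem pd_sub (i : Fin 3) {f g : (Fin 3 → ℝ) → ℝ} (hf : Differentiable ℝ f)
    (hg : Differentiable ℝ g) (x : Fin 3 → ℝ) :
    pd i (fun x => f x - g x) x = pd i f x - pd i g x := by
  unfold pd
  rw [fderiv_fun_sub (hf x) (hg x)]
  simp only [sub_apply]

theorem pd_contDiff (i : Fin 3) {g : (Fin 3 → ℝ) → ℝ} (hg : ContDiff ℝ 2 g) :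
    ContDiff ℝ 1 (pd i g) := by
  unfold pd
  have h : ContDiff ℝ 1 (fderiv ℝ g) := hg.fderiv_right (by norm_num)
  exact h.clm_apply contDiff_const

theorem pd_comm (i j : Fin 3) {g : (Fin 3 → ℝ) → ℝ} (hg : ContDiff ℝ 2 g) (x : Fin 3 → ℝ) :
    pd i (pd j g) x = pd j (pd i g) x := by
  have h : ContDiff ℝ 1 (fderiv ℝ g) := hg.fderiv_right (by norm_num)
  have hd : Differentiable ℝ (fderiv ℝ g) := h.differentiable (by norm_num)
  have hs : IsSymmSndFDerivAt ℝ g x := (hg.contDiffAt).isSymmSndFDerivAt (by simp)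
  have key : ∀ a b : Fin 3, pd a (pd b g) x =
      fderiv ℝ (fderiv ℝ g) x (Pi.single a 1) (Pi.single b 1) := by
    intro a b
    have h1 : pd b g = fun y => (fderiv ℝ g y) (Pi.single b 1) := rfl
    show fderiv ℝ (pd b g) x (Pi.single a 1) = _
    rw [h1, fderiv_clm_apply (hd x) (differentiableAt_const _)]
    simp
  rw [key, key]
  exact hs _ _

/-- determinant of three vectors -/
def det3 (a b c : Fin 3 → ℝ) : ℝ :=
  a 0 * (b 1 * c 2 - b 2 * c 1) - a 1 * (b 0 * c 2 - b 2 * c 0) + a 2 * (b 0 * c 1 - b 1 * c 0)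

/-- the vector of partial derivatives -/
noncomputable def pv (i : Fin 3) (n : Fin 3 → (Fin 3 → ℝ) → ℝ) (x : Fin 3 → ℝ) : Fin 3 → ℝ :=
  fun a => pd i (n a) x

/-- the components of the solid angle form -/
noncomputable def sol (i j : Fin 3) (n : Fin 3 → (Fin 3 → ℝ) → ℝ) (x : Fin 3 → ℝ) : ℝ :=
  n 0 x * (pd i (n 1) x * pd j (n 2) x - pd i (n 2) x * pd j (n 1) x) -
  n 1 x * (pd i (n 0) x * pd j (n 2) x - pd i (n 2) x * pd j (n 0) x) +
  n 2 x * (pd i (n 0) x * pd j (n 1) x - pd i (n 1) x * pd j (n 0) x)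

section
variable {n : Fin 3 → (Fin 3 → ℝ) → ℝ} (hsm : ∀ a, ContDiff ℝ 2 (n a))
  (hunit : ∀ x, n 0 x ^ 2 + n 1 x ^ 2 + n 2 x ^ 2 = 1)

include hsm in
theorem sol_contDiff (i j : Fin 3) : ContDiff ℝ 1 (sol i j n) := by
  unfold sol
  have h0 := (hsm 0).of_le (m := 1) (by norm_num)
  have h1 := (hsm 1).of_le (m := 1) (by norm_num)
  have h2 := (hsm 2).of_le (m := 1) (by norm_num)
  have p := fun a b => pd_contDiff a (hsm b)
  exact ((h0.mul (((p i 1).mul (p j 2)).sub ((p i 2).mul (p j 1)))).sub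
    (h1.mul (((p i 0).mul (p j 2)).sub ((p i 2).mul (p j 0))))).add
    (h2.mul (((p i 0).mul (p j 1)).sub ((p i 1).mul (p j 0))))

include hsm in
theorem pd_sol (i j l : Fin 3) (x : Fin 3 → ℝ) : pd l (sol i j n) x =
    (pd l (n 0) x * (pd i (n 1) x * pd j (n 2) x - pd i (n 2) x * pd j (n 1) x) -
     pd l (n 1) x * (pd i (n 0) x * pd j (n 2) x - pd i (n 2) x * pd j (n 0) x) +
     pd l (n 2) x * (pd i (n 0) x * pd j (n 1) x - pd i (n 1) x * pd j (n 0) x)) +
    (n 0 x * (pd l (pd i (n 1)) x * pd j (n 2) x - pd l (pd i (n 2)) x * pd j (n 1) x) -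
     n 1 x * (pd l (pd i (n 0)) x * pd j (n 2) x - pd l (pd i (n 2)) x * pd j (n 0) x) +
     n 2 x * (pd l (pd i (n 0)) x * pd j (n 1) x - pd l (pd i (n 1)) x * pd j (n 0) x)) +
    (n 0 x * (pd i (n 1) x * pd l (pd j (n 2)) x - pd i (n 2) x * pd l (pd j (n 1)) x) -
     n 1 x * (pd i (n 0) x * pd l (pd j (n 2)) x - pd i (n 2) x * pd l (pd j (n 0)) x) +
     n 2 x * (pd i (n 0) x * pd l (pd j (n 1)) x - pd i (n 1) x * pd l (pd j (n 0)) x)) := by
  have d := fun a => (hsm a).differentiable (by norm_num)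
  have p := fun a b => (pd_contDiff a (hsm b)).differentiable (by norm_num)
  unfold sol
  rw [pd_add, pd_sub, pd_mul, pd_mul, pd_mul, pd_sub, pd_sub, pd_sub, pd_mul, pd_mul, pd_mul,
    pd_mul, pd_mul, pd_mul]
  · ring
  all_goals fun_prop (disch := assumption)

include hsm hunit in
theorem div_zero (x : Fin 3 → ℝ) :
    pd 0 (sol 1 2 n) x + pd 1 (sol 2 0 n) x + pd 2 (sol 0 1 n) x = 0 := by
  have d := fun a => (hsm a).differentiable (by norm_num)
  have horth : ∀ i, n 0 x * pd i (n 0) x + n 1 x * pd i (n 1) x + n 2 x * pd i (n 2) x = 0 := by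
    intro i
    have h1 : (fun x => n 0 x * n 0 x + n 1 x * n 1 x + n 2 x * n 2 x) = fun _ => (1 : ℝ) := by
      funext y; rw [← hunit y]; ring
    have h2 : pd i (fun x => n 0 x * n 0 x + n 1 x * n 1 x + n 2 x * n 2 x) x = 0 := by
      rw [h1]; unfold pd; simp
    rw [pd_add, pd_add, pd_mul, pd_mul, pd_mul] at h2
    · linarith
    all_goals fun_prop (disch := assumption)
  rw [pd_sol hsm, pd_sol hsm, pd_sol hsm]
  rw [pd_comm 1 0 (hsm 0), pd_comm 1 0 (hsm 1), pd_comm 1 0 (hsm 2),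
    pd_comm 2 0 (hsm 0), pd_comm 2 0 (hsm 1), pd_comm 2 0 (hsm 2),
    pd_comm 2 1 (hsm 0), pd_comm 2 1 (hsm 1), pd_comm 2 1 (hsm 2)]
  have hu := hunit x
  have o0 := horth 0
  have o1 := horth 1
  have o2 := horth 2
  generalize n 0 x = N0 at *
  generalize n 1 x = N1 at *
  generalize n 2 x = N2 at *
  generalize pd 0 (n 0) x = a0 at *
  generalize pd 0 (n 1) x = a1 at *
  generalize pd 0 (n 2) x = a2 at *
  generalize pd 1 (n 0) x = b0 at *
  generalize pd 1 (n 1) x = b1 at *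
  generalize pd 1 (n 2) x = b2 at *
  generalize pd 2 (n 0) x = c0 at *
  generalize pd 2 (n 1) x = c1 at *
  generalize pd 2 (n 2) x = c2 at *
  have hdet : a0 * (b1 * c2 - b2 * c1) - a1 * (b0 * c2 - b2 * c0) + a2 * (b0 * c1 - b1 * c0) = 0 := by
    have e0 : (a0 * (b1 * c2 - b2 * c1) - a1 * (b0 * c2 - b2 * c0) + a2 * (b0 * c1 - b1 * c0)) * N0
        = (N0 * a0 + N1 * a1 + N2 * a2) * (b1 * c2 - b2 * c1) +
          (N0 * b0 + N1 * b1 + N2 * b2) * (c1 * a2 - c2 * a1) +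
          (N0 * c0 + N1 * c1 + N2 * c2) * (a1 * b2 - a2 * b1) := by ring
    have e1 : (a0 * (b1 * c2 - b2 * c1) - a1 * (b0 * c2 - b2 * c0) + a2 * (b0 * c1 - b1 * c0)) * N1
        = (N0 * a0 + N1 * a1 + N2 * a2) * (b2 * c0 - b0 * c2) +
          (N0 * b0 + N1 * b1 + N2 * b2) * (c2 * a0 - c0 * a2) +
          (N0 * c0 + N1 * c1 + N2 * c2) * (a2 * b0 - a0 * b2) := by ring
    have e2 : (a0 * (b1 * c2 - b2 * c1) - a1 * (b0 * c2 - b2 * c0) + a2 * (b0 * c1 - b1 * c0)) * N2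
        = (N0 * a0 + N1 * a1 + N2 * a2) * (b0 * c1 - b1 * c0) +
          (N0 * b0 + N1 * b1 + N2 * b2) * (c0 * a1 - c1 * a0) +
          (N0 * c0 + N1 * c1 + N2 * c2) * (a0 * b1 - a1 * b0) := by ring
    rw [o0, o1, o2] at e0 e1 e2
    have h3 : (a0 * (b1 * c2 - b2 * c1) - a1 * (b0 * c2 - b2 * c0) + a2 * (b0 * c1 - b1 * c0)) *
        (N0 ^ 2 + N1 ^ 2 + N2 ^ 2) = 0 := by
      linear_combination N0 * e0 + N1 * e1 + N2 * e2
    rw [hu, mul_one] at h3
    exact h3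
  linear_combination 3 * hdet

end

end Pool.Agent.WFP
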