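import Pool.Agent.WFP.Solid

/-!
# Invariance of the solid angle, integrated form
-/

set_option autoImplicit false

namespace Pool.Agent.WFP

open MeasureTheory Set Real

section
variable {n : Fin 3 → (Fin 3 → ℝ) → ℝ} (hsm : ∀ a, ContDiff ℝ 2 (n a))
  (hunit : ∀ x, n 0 x ^ 2 + n 1 x ^ 2 + n 2 x ^ 2 = 1)

/-- lower corner -/
noncomputable def lo : Fin 3 → ℝ := ![0, 0, 0]
/-- upper corner -/
noncomputable def hi : Fin 3 → ℝ := ![π, 2 * π, π]

theorem lo_le_hi : lo ≤ hi := by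
  intro i
  fin_cases i <;> simp [lo, hi, pi_pos.le]

/-- the rectangle -/
noncomputable def rect : Set (Fin 2 → ℝ) :=
  Icc (lo ∘ Fin.succAbove 0) (hi ∘ Fin.succAbove 0)

theorem pd_per (i : Fin 3) {g : (Fin 3 → ℝ) → ℝ} (c : Fin 3 → ℝ) (h : ∀ x, g (x + c) = g x)
    (x : Fin 3 → ℝ) : pd i g (x + c) = pd i g x := by
  unfold pd
  have h1 : (fun y => g (y + c)) = g := funext h
  have h2 := fderiv_comp_add_right (𝕜 := ℝ) (f := g) (x := x) c
  rw [h1] at h2
  rw [← h2]

include hsm hunit in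
theorem solid_inv (hper : ∀ a x, n a (x + Pi.single 1 (2 * π)) = n a x)
    (hs0 : ∀ a x, x 2 = 0 → pd 1 (n a) x = 0) (hspi : ∀ a x, x 2 = π → pd 1 (n a) x = 0) :
    ∫ y in rect, sol 1 2 n (Fin.cons π y) = ∫ y in rect, sol 1 2 n (Fin.cons 0 y) := by
  let f : Fin 3 → (Fin 3 → ℝ) → ℝ := ![sol 1 2 n, sol 2 0 n, sol 0 1 n]
  have hf : ∀ i, ContDiff ℝ 1 (f i) := by
    intro i
    fin_cases i
    · exact sol_contDiff hsm 1 2
    · exact sol_contDiff hsm 2 0
    · exact sol_contDiff hsm 0 1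
  have hdiv : ∀ x, ∑ i, fderiv ℝ (f i) x (Pi.single i 1) = 0 := by
    intro x
    rw [Fin.sum_univ_three]
    exact div_zero hsm hunit x
  have key := integral_divergence_of_hasFDerivAt_off_countable' (E := ℝ) lo hi lo_le_hi f
    (fun i x => fderiv ℝ (f i) x) ∅ Set.countable_empty
    (fun i => (hf i).continuous.continuousOn)
    (fun x _ i => ((hf i).differentiable (by norm_num) x).hasFDerivAt)
    (by simp only [hdiv]; exact integrableOn_zero)
  simp only [hdiv, integral_zero] at key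
  rw [Fin.sum_univ_three] at key
  -- second face
  have h1 : ∀ y : Fin 2 → ℝ, f 1 ((1 : Fin 3).insertNth (hi 1) y) =
      f 1 ((1 : Fin 3).insertNth (lo 1) y) := by
    intro y
    have hins : ((1 : Fin 3).insertNth (hi 1) y : Fin 3 → ℝ) =
        ((1 : Fin 3).insertNth (lo 1) y : Fin 3 → ℝ) + Pi.single 1 (2 * π) := by
      funext i
      fin_cases i
      · have e : (0 : Fin 3) = (1 : Fin 3).succAbove 0 := rfl
        show ((1 : Fin 3).insertNth (hi 1) y : Fin 3 → ℝ) 0 = _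
        rw [Pi.add_apply]
        show _ = ((1 : Fin 3).insertNth (lo 1) y : Fin 3 → ℝ) 0 + (Pi.single 1 (2 * π) : Fin 3 → ℝ) 0
        rw [Pi.single_eq_of_ne (by decide), add_zero, e, Fin.insertNth_apply_succAbove,
          Fin.insertNth_apply_succAbove]
      · show ((1 : Fin 3).insertNth (hi 1) y : Fin 3 → ℝ) 1 =
          ((1 : Fin 3).insertNth (lo 1) y : Fin 3 → ℝ) 1 + (Pi.single 1 (2 * π) : Fin 3 → ℝ) 1
        rw [Fin.insertNth_apply_same, Fin.insertNth_apply_same, Pi.single_eq_same]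
        simp [lo, hi]
      · have e : (2 : Fin 3) = (1 : Fin 3).succAbove 1 := rfl
        show ((1 : Fin 3).insertNth (hi 1) y : Fin 3 → ℝ) 2 =
          ((1 : Fin 3).insertNth (lo 1) y : Fin 3 → ℝ) 2 + (Pi.single 1 (2 * π) : Fin 3 → ℝ) 2
        rw [Pi.single_eq_of_ne (by decide), add_zero, e, Fin.insertNth_apply_succAbove,
          Fin.insertNth_apply_succAbove]
    rw [hins]
    show sol 2 0 n _ = sol 2 0 n _
    unfold sol
    simp only [hper, pd_per _ _ (hper _)]
  -- third face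
  have h2 : ∀ (c : ℝ) (y : Fin 2 → ℝ), (c = 0 ∨ c = π) → f 2 ((2 : Fin 3).insertNth c y) = 0 := by
    intro c y hc
    have hlast : ((2 : Fin 3).insertNth c y : Fin 3 → ℝ) 2 = c := Fin.insertNth_apply_same _ _ _
    have hz : ∀ a, pd 1 (n a) ((2 : Fin 3).insertNth c y) = 0 := by
      intro a
      rcases hc with hc | hc
      · exact hs0 a _ (by rw [hlast, hc])
      · exact hspi a _ (by rw [hlast, hc])
    show sol 0 1 n _ = 0
    unfold sol
    simp only [hz]
    ring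
  have h2a : ∀ y : Fin 2 → ℝ, f 2 ((2 : Fin 3).insertNth (hi 2) y) = 0 := fun y =>
    h2 _ y (Or.inr rfl)
  have h2b : ∀ y : Fin 2 → ℝ, f 2 ((2 : Fin 3).insertNth (lo 2) y) = 0 := fun y =>
    h2 _ y (Or.inl rfl)
  simp only [h1, h2a, h2b, integral_zero, sub_self, add_zero] at key
  have key2 := sub_eq_zero.1 key.symm
  have e1 : ∀ (c : ℝ) (y : Fin 2 → ℝ), ((0 : Fin 3).insertNth c y : Fin 3 → ℝ) = Fin.cons c y := by
    intro c y
    exact Fin.insertNth_zero' c y
  simp only [e1] at key2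
  exact key2

include hsm hunit in
theorem end_value (θ : ℝ)
    (hrot : ∀ φ s : ℝ, n 0 ![θ, φ, s] = cos φ * n 0 ![θ, 0, s] - sin φ * n 1 ![θ, 0, s] ∧
      n 1 ![θ, φ, s] = sin φ * n 0 ![θ, 0, s] + cos φ * n 1 ![θ, 0, s] ∧
      n 2 ![θ, φ, s] = n 2 ![θ, 0, s]) :
    ∫ y in rect, sol 1 2 n (Fin.cons θ y) = 2 * π * (n 2 ![θ, 0, π] - n 2 ![θ, 0, 0]) := by
  have d := fun a => (hsm a).differentiable (by norm_num)
  have hcons : ∀ y : Fin 2 → ℝ, (Fin.cons θ y : Fin 3 → ℝ) = ![θ, y 0, y 1] := by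
    intro y
    funext i
    fin_cases i <;> rfl
  -- derivative along φ
  have hline : ∀ (a : Fin 3) (φ s : ℝ), HasDerivAt (fun t => n a ![θ, t, s])
      (pd 1 (n a) ![θ, φ, s]) φ := by
    intro a φ s
    have h1 : HasDerivAt (fun t : ℝ => (![θ, t, s] : Fin 3 → ℝ)) (Pi.single 1 1) φ := by
      rw [hasDerivAt_pi]
      intro i
      fin_cases i
      · exact hasDerivAt_const _ _
      · exact hasDerivAt_id _
      · exact hasDerivAt_const _ _
    exact ((d a _).hasFDerivAt).comp_hasDerivAt φ h1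
  have hd0 : ∀ φ s, pd 1 (n 0) ![θ, φ, s] = - n 1 ![θ, φ, s] := by
    intro φ s
    have h1 := hline 0 φ s
    have h2 : HasDerivAt (fun t => n 0 ![θ, t, s])
        (- sin φ * n 0 ![θ, 0, s] - cos φ * n 1 ![θ, 0, s]) φ := by
      have : (fun t => n 0 ![θ, t, s]) = fun t => cos t * n 0 ![θ, 0, s] - sin t * n 1 ![θ, 0, s] :=
        funext fun t => (hrot t s).1
      rw [this]
      exact ((hasDerivAt_cos φ).mul_const _).sub ((hasDerivAt_sin φ).mul_const _)
    rw [h1.unique h2, (hrot φ s).2.1]; ring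
  have hd1 : ∀ φ s, pd 1 (n 1) ![θ, φ, s] = n 0 ![θ, φ, s] := by
    intro φ s
    have h1 := hline 1 φ s
    have h2 : HasDerivAt (fun t => n 1 ![θ, t, s])
        (cos φ * n 0 ![θ, 0, s] + - sin φ * n 1 ![θ, 0, s]) φ := by
      have : (fun t => n 1 ![θ, t, s]) = fun t => sin t * n 0 ![θ, 0, s] + cos t * n 1 ![θ, 0, s] :=
        funext fun t => (hrot t s).2.1
      rw [this]
      exact ((hasDerivAt_sin φ).mul_const _).add ((hasDerivAt_cos φ).mul_const _)
    rw [h1.unique h2, (hrot φ s).1]; ring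
  have hd2 : ∀ φ s, pd 1 (n 2) ![θ, φ, s] = 0 := by
    intro φ s
    have h1 := hline 2 φ s
    have h2 : HasDerivAt (fun t => n 2 ![θ, t, s]) 0 φ := by
      have : (fun t => n 2 ![θ, t, s]) = fun _ => n 2 ![θ, 0, s] :=
        funext fun t => (hrot t s).2.2
      rw [this]
      exact hasDerivAt_const _ _
    exact h1.unique h2
  have hsol : ∀ y : Fin 2 → ℝ, sol 1 2 n (Fin.cons θ y) = pd 2 (n 2) (Fin.cons θ y) := by
    intro y
    rw [hcons]
    unfold sol
    rw [hd0, hd1, hd2]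
    have horth : n 0 ![θ, y 0, y 1] * pd 2 (n 0) ![θ, y 0, y 1] +
        n 1 ![θ, y 0, y 1] * pd 2 (n 1) ![θ, y 0, y 1] +
        n 2 ![θ, y 0, y 1] * pd 2 (n 2) ![θ, y 0, y 1] = 0 := by
      have h1 : (fun x => n 0 x * n 0 x + n 1 x * n 1 x + n 2 x * n 2 x) = fun _ => (1 : ℝ) := by
        funext y; rw [← hunit y]; ring
      have h2 : pd 2 (fun x => n 0 x * n 0 x + n 1 x * n 1 x + n 2 x * n 2 x) ![θ, y 0, y 1] = 0 := by
        rw [h1]; unfold pd; simp
      rw [pd_add, pd_add, pd_mul, pd_mul, pd_mul] at h2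
      · linarith
      all_goals fun_prop (disch := assumption)
    have hu := hunit ![θ, y 0, y 1]
    linear_combination (pd 2 (n 2) ![θ, y 0, y 1]) * hu - (n 2 ![θ, y 0, y 1]) * horth
  simp only [hsol]
  -- two-dimensional divergence theorem
  let a2 : Fin 2 → ℝ := lo ∘ Fin.succAbove 0
  let b2 : Fin 2 → ℝ := hi ∘ Fin.succAbove 0
  have hab : a2 ≤ b2 := fun i => lo_le_hi _
  let L : (Fin 2 → ℝ) →L[ℝ] (Fin 3 → ℝ) :=
    LinearMap.toContinuousLinearMap
      { toFun := fun y => Fin.cons 0 y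
        map_add' := by
          intro x y; funext i; refine Fin.cases ?_ (fun j => ?_) i <;> simp
        map_smul' := by
          intro c y; funext i; refine Fin.cases ?_ (fun j => ?_) i <;> simp }
  have hL : ∀ y, L y = Fin.cons 0 y := fun y => rfl
  have hfd : ∀ y : Fin 2 → ℝ, HasFDerivAt (fun y : Fin 2 → ℝ => (Fin.cons θ y : Fin 3 → ℝ)) L y := by
    intro y
    have : (fun y : Fin 2 → ℝ => (Fin.cons θ y : Fin 3 → ℝ)) =
        fun y => L y + Fin.cons θ 0 := by
      funext y i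
      refine Fin.cases ?_ (fun j => ?_) i <;> simp [hL]
    rw [this]
    exact L.hasFDerivAt.add_const _
  let F : Fin 2 → (Fin 2 → ℝ) → ℝ := ![fun _ => 0, fun y => n 2 (Fin.cons θ y)]
  let F' : Fin 2 → (Fin 2 → ℝ) → (Fin 2 → ℝ) →L[ℝ] ℝ :=
    ![fun _ => 0, fun y => (fderiv ℝ (n 2) (Fin.cons θ y)).comp L]
  have hsum : ∀ y : Fin 2 → ℝ, ∑ i, F' i y (Pi.single i 1) = pd 2 (n 2) (Fin.cons θ y) := by
    intro y
    rw [Fin.sum_univ_two]
    show (0 : ℝ) + fderiv ℝ (n 2) (Fin.cons θ y) (L (Pi.single 1 1)) = _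
    rw [zero_add, hL]
    have : (Fin.cons 0 (Pi.single (1 : Fin 2) (1 : ℝ) : Fin 2 → ℝ) : Fin 3 → ℝ) = Pi.single 2 1 := by
      funext i
      fin_cases i
      · rfl
      · rfl
      · rfl
    rw [this]; rfl
  have hcF : ∀ i, Continuous (F i) := by
    intro i
    fin_cases i
    · exact continuous_const
    · show Continuous (fun y : Fin 2 → ℝ => n 2 (Fin.cons θ y))
      exact (d 2).continuous.comp (continuous_iff_continuousAt.2 fun y => (hfd y).continuousAt)
  have hcpd : Continuous (fun y : Fin 2 → ℝ => pd 2 (n 2) (Fin.cons θ y)) :=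
    (pd_contDiff 2 (hsm 2)).continuous.comp
      (continuous_iff_continuousAt.2 fun y => (hfd y).continuousAt)
  have key := integral_divergence_of_hasFDerivAt_off_countable' (E := ℝ) a2 b2 hab F F' ∅
    Set.countable_empty (fun i => (hcF i).continuousOn)
    (by
      intro y _ i
      fin_cases i
      · exact hasFDerivAt_const _ _
      · exact ((d 2 _).hasFDerivAt).comp y (hfd y))
    (by
      simp only [hsum]
      exact hcpd.continuousOn.integrableOn_compact isCompact_Icc)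
  simp only [hsum] at key
  rw [Fin.sum_univ_two] at key
  show ∫ y in Icc a2 b2, pd 2 (n 2) (Fin.cons θ y) = _
  rw [key]
  have e0 : ∀ y : Fin 2 → ℝ, F 0 y = 0 := fun _ => rfl
  have e1 : ∀ (c : ℝ) (y : Fin 1 → ℝ), F 1 ((1 : Fin 2).insertNth c y) = n 2 ![θ, 0, c] := by
    intro c y
    show n 2 (Fin.cons θ ((1 : Fin 2).insertNth c y : Fin 2 → ℝ)) = _
    rw [hcons, (hrot _ _).2.2]
    have : ((1 : Fin 2).insertNth c y : Fin 2 → ℝ) 1 = c := Fin.insertNth_apply_same _ _ _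
    rw [this]
  simp only [e0, e1, integral_zero, sub_self, zero_add]
  rw [setIntegral_const, setIntegral_const]
  have hvol : (volume : Measure (Fin 1 → ℝ)).real (Icc (a2 ∘ Fin.succAbove 1) (b2 ∘ Fin.succAbove 1)) =
      2 * π := by
    rw [Measure.real, Real.volume_Icc_pi]
    simp only [Fin.prod_univ_succ, Finset.univ_eq_empty, Finset.prod_empty, mul_one]
    have h1 : (b2 ∘ Fin.succAbove 1) (0 : Fin 1) = 2 * π := rfl
    have h2 : (a2 ∘ Fin.succAbove 1) (0 : Fin 1) = 0 := rfl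
    rw [h1, h2, sub_zero, ENNReal.toReal_ofReal (by positivity)]
  rw [hvol]
  have hb : b2 1 = π := rfl
  have ha : a2 1 = 0 := rfl
  rw [hb, ha, smul_eq_mul, smul_eq_mul]
  ring

end

end Pool.Agent.WFP
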