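import Pool.Agent.WFP.Ext

/-!
# The transfer lemma

Free products of groups `P j`, normal subgroups `κ j ⊴ P j`, a set `S` of elements of `*κ j`
whose normal closure in `*P j` contains all `κ j`.  If the characters `χ j` of the `κ j` give
homomorphisms `Ψ j : (P j → A j) → E` which are injective or trivial and which kill `S`, then all
`χ j` with `Ψ j` injective are trivial.
-/

set_option autoImplicit false
set_option linter.unusedSectionVars false

namespace Pool.Agent.WFP

open Monoid Monoid.CoprodI

/-- right multiplication by the inverse -/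
def Rinv (E : Type*) [Group E] : E →* Equiv.Perm E where
  toFun x := Equiv.mulRight x⁻¹
  map_one' := by ext e; simp
  map_mul' x y := by ext e; simp [mul_assoc]

theorem Rinv_apply (E : Type*) [Group E] (x e : E) : Rinv E x e = e * x⁻¹ := rfl

theorem transfer {J : Type*} {P : J → Type*} [∀ j, Group (P j)] (κ : ∀ j, Subgroup (P j))
    [∀ j, (κ j).Normal] {A : J → Type*} [∀ j, CommGroup (A j)] (χ : ∀ j, κ j →* A j)
    {E : Type*} [Group E] (Ψ : ∀ j, (P j → A j) →* E)
    (hinj : ∀ j, Function.Injective (Ψ j) ∨ Ψ j = 1)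
    (S : Set (CoprodI P))
    (hS : ∀ s ∈ S, ∃ w : CoprodI (fun j => κ j),
      lift (fun j => (of : P j →* CoprodI P).comp (κ j).subtype) w = s ∧
      lift (fun j => (Ψ j).comp (tHom (κ j) (χ j))) w = 1)
    (hκ : ∀ j, ∀ a : κ j, (of (a : P j) : CoprodI P) ∈ Subgroup.normalClosure S)
    (j : J) (hj : Function.Injective (Ψ j)) : χ j = 1 := by
  classical
  have hex : ∀ j, ∃ ρ : P j →* Equiv.Perm E, ∀ (a : κ j) (e : E),
      ρ a e = e * (Ψ j (tHom (κ j) (χ j) a))⁻¹ := by
    intro j
    rcases hinj j with h | h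
    · exact extension (Ψ j) h
    · refine ⟨1, ?_⟩
      intro a e
      rw [h]
      simp
  choose ρ hρ using hex
  let R : CoprodI P →* Equiv.Perm E := lift ρ
  have hcomp : R.comp (lift (fun j => (of : P j →* CoprodI P).comp (κ j).subtype)) =
      (Rinv E).comp (lift (fun j => (Ψ j).comp (tHom (κ j) (χ j)))) := by
    apply CoprodI.ext_hom
    intro i
    ext a e
    simp only [MonoidHom.comp_apply, lift_of, Subgroup.coe_subtype, R, Rinv_apply]
    exact hρ i a e
  have hker : S ⊆ (R.ker : Set (CoprodI P)) := by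
    intro s hs
    obtain ⟨w, hw1, hw2⟩ := hS s hs
    rw [SetLike.mem_coe, MonoidHom.mem_ker, ← hw1]
    have := DFunLike.congr_fun hcomp w
    simp only [MonoidHom.comp_apply] at this
    rw [this, hw2, map_one]
  have hle : Subgroup.normalClosure S ≤ R.ker := Subgroup.normalClosure_le_normal hker
  ext a
  have h1 : R (of (a : P j)) = 1 := hle (hκ j a)
  have h2 : ρ j (a : P j) = 1 := by
    simpa [R] using h1
  have h3 := hρ j a 1
  rw [h2] at h3
  simp only [Equiv.Perm.coe_one, id_eq, one_mul] at h3
  have h4 : Ψ j (tHom (κ j) (χ j) a) = 1 := by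
    exact inv_eq_one.1 h3.symm
  have h5 : tHom (κ j) (χ j) a = 1 := by
    apply hj
    rw [h4, map_one]
  rw [← tHom_apply_one, h5]
  rfl

end Pool.Agent.WFP
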